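import Mathlib

/-!
The divisor bound: for every `ε > 0` there is `C` with `d(n) ≤ C n ^ ε`.
-/

namespace Pool.Agent.Hhelper87

open Finset

lemma divisor_bound (ε : ℝ) (hε : 0 < ε) :
    ∃ C : ℝ, 1 ≤ C ∧ ∀ n : ℕ, n ≠ 0 → (n.divisors.card : ℝ) ≤ C * (n : ℝ) ^ ε := by
  obtain ⟨M, hM⟩ := exists_nat_ge ((2 : ℝ) ^ (1 / ε))
  have hlog2 : 0 < Real.log 2 := Real.log_pos (by norm_num)
  set C' : ℝ := max 1 (1 / (ε * Real.log 2)) with hC'
  have hC'1 : 1 ≤ C' := le_max_left _ _
  have hC'0 : 0 < C' := lt_of_lt_of_le one_pos hC'1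
  -- local bound
  have key : ∀ p e : ℕ, p.Prime → ((e : ℝ) + 1) ≤ (if p < M then C' else 1) * ((p : ℝ) ^ e) ^ ε := by
    intro p e hp
    have hp2 : (2 : ℝ) ≤ p := by exact_mod_cast hp.two_le
    split_ifs with h
    · have h1 : ((2 : ℝ) ^ e) ^ ε ≤ ((p : ℝ) ^ e) ^ ε := by
        apply Real.rpow_le_rpow (by positivity) _ hε.le
        exact pow_le_pow_left₀ (by norm_num) hp2 e
      have h2 : 1 + (e : ℝ) * (ε * Real.log 2) ≤ ((2 : ℝ) ^ e) ^ ε := by
        have : ((2 : ℝ) ^ e) ^ ε = Real.exp ((e : ℝ) * (ε * Real.log 2)) := by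
          rw [← Real.rpow_natCast, ← Real.rpow_mul (by norm_num), Real.rpow_def_of_pos (by norm_num)]
          congr 1; ring
        rw [this]
        have := Real.add_one_le_exp ((e : ℝ) * (ε * Real.log 2))
        linarith
      have h3 : 1 ≤ C' * (ε * Real.log 2) := by
        have : 1 / (ε * Real.log 2) ≤ C' := le_max_right _ _
        rw [div_le_iff₀ (by positivity)] at this
        exact this
      calc (e : ℝ) + 1 ≤ C' * (1 + (e : ℝ) * (ε * Real.log 2)) := by
            have he : (0 : ℝ) ≤ e := Nat.cast_nonneg e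
            nlinarith [mul_le_mul_of_nonneg_left h3 he]
        _ ≤ C' * ((p : ℝ) ^ e) ^ ε := by
            apply mul_le_mul_of_nonneg_left _ hC'0.le
            exact h2.trans h1
    · rw [one_mul]
      push Not at h
      have hpM : (2 : ℝ) ^ (1 / ε) ≤ p := hM.trans (by exact_mod_cast h)
      have h1 : (2 : ℝ) ≤ (p : ℝ) ^ ε := by
        have := Real.rpow_le_rpow (by positivity) hpM hε.le
        rwa [← Real.rpow_mul (by norm_num), one_div_mul_cancel hε.ne', Real.rpow_one] at this
      have h2 : ((p : ℝ) ^ e) ^ ε = ((p : ℝ) ^ ε) ^ e := by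
        rw [← Real.rpow_natCast, ← Real.rpow_natCast, ← Real.rpow_mul (by positivity),
          ← Real.rpow_mul (by positivity), mul_comm]
      rw [h2]
      calc (e : ℝ) + 1 ≤ (2 : ℝ) ^ e := by
            have := Nat.lt_two_pow_self (n := e)
            exact_mod_cast this
        _ ≤ _ := pow_le_pow_left₀ (by norm_num) h1 e
  refine ⟨C' ^ M, one_le_pow₀ hC'1, fun n hn => ?_⟩
  rw [Nat.card_divisors hn]
  push_cast
  calc ∏ p ∈ n.primeFactors, ((n.factorization p : ℝ) + 1)
      ≤ ∏ p ∈ n.primeFactors, ((if p < M then C' else 1) * ((p : ℝ) ^ (n.factorization p)) ^ ε) := by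
        apply Finset.prod_le_prod
        · intro p _; positivity
        · intro p hp
          exact key p _ (Nat.prime_of_mem_primeFactors hp)
    _ = (∏ p ∈ n.primeFactors, (if p < M then C' else 1)) *
          ∏ p ∈ n.primeFactors, ((p : ℝ) ^ (n.factorization p)) ^ ε := Finset.prod_mul_distrib
    _ ≤ C' ^ M * (n : ℝ) ^ ε := by
        apply mul_le_mul
        · rw [Finset.prod_ite, Finset.prod_const, Finset.prod_const_one, mul_one]
          apply pow_le_pow_right₀ hC'1
          calc _ ≤ (Finset.range M).card := by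
                apply Finset.card_le_card
                intro p hp
                simp only [Finset.mem_filter] at hp
                simpa using hp.2
            _ = M := Finset.card_range M
        · apply le_of_eq
          rw [Real.finsetProd_rpow _ _ (fun p _ => by positivity)]
          congr 1
          have := Nat.prod_factorization_pow_eq_self hn
          conv_rhs => rw [← this]
          rw [Finsupp.prod]
          push_cast
          rfl
        · positivity
        · positivity

end Pool.Agent.Hhelper87
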