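import Mathlib

/-!
Basic facts on the equation `sigma_2 = sigma_n` and its reformulation in terms of the multiset of
the entries that are at least two.
-/

namespace Pool.Agent.Hhelper87

open Multiset

/-- excess of a multiset: sum of `a - 1`. -/
def rr (w : Multiset ℕ) : ℕ := (w.map (fun a => a - 1)).sum

/-- sum of `a * (a - 1)`. -/
def gg (w : Multiset ℕ) : ℕ := (w.map (fun a => a * (a - 1))).sum

/-- `w` is the multiset of the entries `≥ 2` of a solution with `n` entries. -/
def IsSol (n : ℕ) (w : Multiset ℕ) : Prop :=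
  (∀ a ∈ w, 2 ≤ a) ∧ Multiset.card w ≤ n ∧ (n + rr w) ^ 2 = n + rr w + 2 * w.prod + gg w

@[simp] lemma rr_zero : rr 0 = 0 := by simp [rr]
@[simp] lemma gg_zero : gg 0 = 0 := by simp [gg]
@[simp] lemma rr_cons (a : ℕ) (w : Multiset ℕ) : rr (a ::ₘ w) = (a - 1) + rr w := by simp [rr]
@[simp] lemma gg_cons (a : ℕ) (w : Multiset ℕ) : gg (a ::ₘ w) = a * (a - 1) + gg w := by simp [gg]
lemma rr_add (v w : Multiset ℕ) : rr (v + w) = rr v + rr w := by simp [rr]
lemma gg_add (v w : Multiset ℕ) : gg (v + w) = gg v + gg w := by simp [gg]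

lemma sq_sum_eq (w : Multiset ℕ) :
    w.sum ^ 2 = (w.map (fun a => a ^ 2)).sum + 2 * w.esymm 2 := by
  induction w using Multiset.induction with
  | empty => simp [Multiset.esymm, Multiset.powersetCard_zero_right]
  | cons a s ih =>
    have h : (a ::ₘ s).esymm 2 = s.esymm 2 + a * s.sum := by
      simp only [Multiset.esymm, Multiset.powersetCard_cons, Multiset.powersetCard_one,
        Multiset.map_map, Multiset.map_add, Multiset.sum_add, Function.comp_def,
        Multiset.prod_cons, Multiset.prod_singleton]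
      rw [Multiset.sum_map_mul_left]
      simp
    rw [h, Multiset.sum_cons, Multiset.map_cons, Multiset.sum_cons]
    nlinarith [ih]

/-- the full multiset of entries `≥ 1` : sum in terms of `rr`. -/
lemma sum_eq_card_add_rr (w : Multiset ℕ) (hw : ∀ a ∈ w, 1 ≤ a) :
    w.sum = Multiset.card w + rr w := by
  induction w using Multiset.induction with
  | empty => simp
  | cons a s ih =>
    have h1 : 1 ≤ a := hw a (by simp)
    have h2 := ih (fun b hb => hw b (by simp [hb]))
    simp only [Multiset.sum_cons, Multiset.card_cons, rr_cons]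
    omega

lemma sum_sq_eq (w : Multiset ℕ) (hw : ∀ a ∈ w, 1 ≤ a) :
    (w.map (fun a => a ^ 2)).sum = w.sum + gg w := by
  induction w using Multiset.induction with
  | empty => simp
  | cons a s ih =>
    have h1 : 1 ≤ a := hw a (by simp)
    have h2 := ih (fun b hb => hw b (by simp [hb]))
    simp only [Multiset.sum_cons, Multiset.map_cons, gg_cons]
    rw [h2]
    obtain ⟨b, rfl⟩ : ∃ b, a = b + 1 := ⟨a - 1, by omega⟩
    simp only [Nat.add_sub_cancel]
    ring

/-- splitting a multiset of positive integers in the ones and the entries `≥ 2`. -/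
lemma filter_ge_two_add (w : Multiset ℕ) (hw : ∀ a ∈ w, 1 ≤ a) :
    w = w.filter (fun a => 2 ≤ a) + Multiset.replicate (Multiset.card w -
      Multiset.card (w.filter (fun a => 2 ≤ a))) 1 := by
  have h := Multiset.filter_add_not (fun a => 2 ≤ a) w
  have h2 : w.filter (fun a => ¬ 2 ≤ a) = Multiset.replicate
      (Multiset.card (w.filter (fun a => ¬ 2 ≤ a))) 1 := by
    rw [Multiset.eq_replicate]
    refine ⟨rfl, fun b hb => ?_⟩
    rw [Multiset.mem_filter] at hb
    have := hw b hb.1
    omega
  have h3 : Multiset.card (w.filter (fun a => ¬ 2 ≤ a)) =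
      Multiset.card w - Multiset.card (w.filter (fun a => 2 ≤ a)) := by
    have := congrArg Multiset.card h
    rw [Multiset.card_add] at this
    omega
  rw [← h3, ← h2, h]

lemma rr_replicate_one (k : ℕ) : rr (Multiset.replicate k 1) = 0 := by simp [rr]
lemma gg_replicate_one (k : ℕ) : gg (Multiset.replicate k 1) = 0 := by simp [gg]

/-- the multiset equation. -/
lemma esymm_two_eq_prod_iff (w : Multiset ℕ) (hw : ∀ a ∈ w, 1 ≤ a) :
    w.esymm 2 = w.prod ↔
      (Multiset.card w + rr w) ^ 2 = Multiset.card w + rr w + 2 * w.prod + gg w := by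
  have h1 := sq_sum_eq w
  have h2 := sum_sq_eq w hw
  have h3 := sum_eq_card_add_rr w hw
  rw [h2, h3] at h1
  rw [h1]
  constructor
  · intro h; rw [h]; ring
  · intro h; omega

end Pool.Agent.Hhelper87
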