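import Mathlib
import Pool.Agent.Hhelper87.SigmaTwo.Basic

/-!
The set of nondecreasing positive solutions with `n` entries is in bijection with the set
of multisets `w` satisfying `IsSol n w`.
-/

namespace Pool.Agent.Hhelper87

open Multiset

/-- The set of nondecreasing positive integer solutions of `sigma_2 = sigma_n`. -/
def SolSet (n : ℕ) : Set (Fin n → ℕ) :=
  {x | (∀ i, 0 < x i) ∧ Monotone x ∧
    MvPolynomial.eval x (MvPolynomial.esymm (Fin n) ℕ 2) =
      MvPolynomial.eval x (MvPolynomial.esymm (Fin n) ℕ n)}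

/-- the multiset of entries of `x`. -/
def ms {n : ℕ} (x : Fin n → ℕ) : Multiset ℕ := (Finset.univ : Finset (Fin n)).val.map x

lemma card_ms {n : ℕ} (x : Fin n → ℕ) : Multiset.card (ms x) = n := by simp [ms]

lemma ms_eq_ofFn {n : ℕ} (x : Fin n → ℕ) : ms x = (List.ofFn x : Multiset ℕ) := by
  simp [ms, Fin.univ_val_map]

lemma eval_esymm_eq {n : ℕ} (x : Fin n → ℕ) (k : ℕ) :
    MvPolynomial.eval x (MvPolynomial.esymm (Fin n) ℕ k) = (ms x).esymm k := by
  rw [ms, ← MvPolynomial.aeval_esymm_eq_multiset_esymm (Fin n) ℕ k x]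
  simp [MvPolynomial.aeval_eq_eval]

lemma esymm_card (w : Multiset ℕ) : w.esymm (Multiset.card w) = w.prod := by
  simp [Multiset.esymm]

lemma mem_SolSet_iff {n : ℕ} (x : Fin n → ℕ) :
    x ∈ SolSet n ↔ (∀ a ∈ ms x, 1 ≤ a) ∧ Monotone x ∧
      (n + rr (ms x)) ^ 2 = n + rr (ms x) + 2 * (ms x).prod + gg (ms x) := by
  have hpos : (∀ i, 0 < x i) ↔ (∀ a ∈ ms x, 1 ≤ a) := by
    simp [ms, Nat.succ_le_iff]
  unfold SolSet
  rw [Set.mem_ofPred_eq, hpos]
  refine and_congr_right fun h1 => and_congr_right fun _ => ?_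
  rw [eval_esymm_eq, eval_esymm_eq]
  have h := esymm_two_eq_prod_iff (ms x) h1
  rw [card_ms] at h
  rw [← h]
  have h2 := esymm_card (ms x)
  rw [card_ms] at h2
  rw [h2]

/-- the map to the reduced multiset -/
def red {n : ℕ} (x : Fin n → ℕ) : Multiset ℕ := (ms x).filter (fun a => 2 ≤ a)

lemma ms_injOn_mono {n : ℕ} {x y : Fin n → ℕ} (hx : Monotone x) (hy : Monotone y)
    (h : ms x = ms y) : x = y := by
  rw [ms_eq_ofFn, ms_eq_ofFn, Multiset.coe_eq_coe] at h
  have h2 := h.eq_of_sortedLE hx.sortedLE_ofFn hy.sortedLE_ofFn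
  exact List.ofFn_injective h2

lemma red_injOn (n : ℕ) : Set.InjOn (red (n := n)) (SolSet n) := by
  intro x hx y hy hxy
  rw [mem_SolSet_iff] at hx hy
  refine ms_injOn_mono hx.2.1 hy.2.1 ?_
  rw [filter_ge_two_add (ms x) hx.1, filter_ge_two_add (ms y) hy.1]
  unfold red at hxy
  rw [hxy, card_ms, card_ms]

lemma ms_eq_red_add {n : ℕ} {x : Fin n → ℕ} (hx : ∀ a ∈ ms x, 1 ≤ a) :
    ms x = red x + Multiset.replicate (n - Multiset.card (red x)) 1 := by
  have := filter_ge_two_add (ms x) hx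
  rw [card_ms] at this
  exact this

lemma red_mem {n : ℕ} {x : Fin n → ℕ} (hx : x ∈ SolSet n) : IsSol n (red x) := by
  rw [mem_SolSet_iff] at hx
  obtain ⟨h1, h2, h3⟩ := hx
  have h4 := ms_eq_red_add h1
  refine ⟨fun a ha => (Multiset.mem_filter.mp ha).2, ?_, ?_⟩
  · have := Multiset.card_le_card (Multiset.filter_le (fun a => 2 ≤ a) (ms x))
    rw [card_ms] at this
    exact this
  · rw [h4] at h3
    simpa [rr_add, gg_add, rr_replicate_one, gg_replicate_one] using h3

lemma exists_of_isSol {n : ℕ} {w : Multiset ℕ} (hw : IsSol n w) : ∃ x ∈ SolSet n, red x = w := by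
  obtain ⟨h1, h2, h3⟩ := hw
  set X : Multiset ℕ := w + Multiset.replicate (n - Multiset.card w) 1 with hX
  have hcard : Multiset.card X = n := by simp [hX]; omega
  have hlen : (X.sort (· ≤ ·)).length = n := by rw [Multiset.length_sort, hcard]
  let x : Fin n → ℕ := fun i => (X.sort (· ≤ ·)).get (i.cast hlen.symm)
  have hofFn : List.ofFn x = X.sort (· ≤ ·) := by
    apply List.ext_get
    · simp [hlen]
    · intro m h₁ h₂
      simp [x]
  have hms : ms x = X := by
    rw [ms_eq_ofFn, hofFn, Multiset.sort_eq]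
  have hmono : Monotone x := by
    rw [← List.sortedLE_ofFn_iff, hofFn]
    exact (Multiset.pairwise_sort X (· ≤ ·)).sortedLE
  have hXpos : ∀ a ∈ X, 1 ≤ a := by
    intro a ha
    rw [hX, Multiset.mem_add] at ha
    rcases ha with ha | ha
    · have := h1 a ha; omega
    · rw [Multiset.eq_of_mem_replicate ha]
  refine ⟨x, ?_, ?_⟩
  · rw [mem_SolSet_iff, hms]
    refine ⟨hXpos, hmono, ?_⟩
    simpa [hX, rr_add, gg_add, rr_replicate_one, gg_replicate_one] using h3
  · unfold red
    rw [hms, hX, Multiset.filter_add]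
    have e1 : w.filter (fun a => 2 ≤ a) = w := Multiset.filter_eq_self.mpr h1
    have e2 : (Multiset.replicate (n - Multiset.card w) 1).filter (fun a => 2 ≤ a) = 0 := by
      rw [Multiset.filter_eq_nil]
      intro a ha
      rw [Multiset.eq_of_mem_replicate ha]
      omega
    rw [e1, e2, add_zero]

theorem encard_SolSet (n : ℕ) : (SolSet n).encard = {w : Multiset ℕ | IsSol n w}.encard := by
  rw [← (red_injOn n).encard_image]
  congr 1
  ext w
  constructor
  · rintro ⟨x, hx, rfl⟩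
    exact red_mem hx
  · intro hw
    obtain ⟨x, hx, hxw⟩ := exists_of_isSol hw
    exact ⟨x, hx, hxw⟩

end Pool.Agent.Hhelper87
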