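import Mathlib
import Pool.Agent.Hhelper87.SigmaTwo.Basic

/-!
Size bounds for the solutions.
-/

namespace Pool.Agent.Hhelper87

open Multiset

lemma prod_pos_of_ge_two (w : Multiset ℕ) (hw : ∀ a ∈ w, 2 ≤ a) : 0 < w.prod := by
  apply Nat.pos_of_ne_zero
  intro h0
  rw [Multiset.prod_eq_zero_iff] at h0
  have := hw 0 h0
  omega

lemma rr_add_one_le_prod (w : Multiset ℕ) (hw : ∀ a ∈ w, 2 ≤ a) : rr w + 1 ≤ w.prod := by
  induction w using Multiset.induction with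
  | empty => simp
  | cons a s ih =>
    have h1 : 2 ≤ a := hw a (by simp)
    have h2 := ih (fun b hb => hw b (by simp [hb]))
    simp only [Multiset.prod_cons, rr_cons]
    obtain ⟨b, rfl⟩ : ∃ b, a = b + 1 := ⟨a - 1, by omega⟩
    simp only [Nat.add_sub_cancel]
    nlinarith

lemma two_pow_card_le (w : Multiset ℕ) (hw : ∀ a ∈ w, 2 ≤ a) :
    2 ^ Multiset.card w ≤ w.prod := Multiset.pow_card_le_prod hw

lemma rr_le_card_mul (w : Multiset ℕ) (y : ℕ) (hw : ∀ a ∈ w, a ≤ y) :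
    rr w ≤ Multiset.card w * (y - 1) := by
  unfold rr
  have := Multiset.sum_le_card_nsmul (w.map (fun a => a - 1)) (y - 1) (by
    intro x hx
    rw [Multiset.mem_map] at hx
    obtain ⟨a, ha, rfl⟩ := hx
    have := hw a ha
    omega)
  simpa using this

lemma gg_le_card_mul (w : Multiset ℕ) (y : ℕ) (hw : ∀ a ∈ w, a ≤ y) :
    gg w ≤ Multiset.card w * (y * y) := by
  unfold gg
  have := Multiset.sum_le_card_nsmul (w.map (fun a => a * (a - 1))) (y * y) (by
    intro x hx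
    rw [Multiset.mem_map] at hx
    obtain ⟨a, ha, rfl⟩ := hx
    have := hw a ha
    exact Nat.mul_le_mul this (by omega))
  simpa using this

lemma exists_max (w : Multiset ℕ) (hw : w ≠ 0) :
    ∃ z v, w = z ::ₘ v ∧ ∀ a ∈ v, a ≤ z := by
  induction w using Multiset.induction with
  | empty => exact absurd rfl hw
  | cons a s ih =>
    by_cases hs : s = 0
    · exact ⟨a, s, rfl, by simp [hs]⟩
    · obtain ⟨z, v, rfl, hv⟩ := ih hs
      rcases le_total a z with h | h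
      · refine ⟨z, a ::ₘ v, Multiset.cons_swap _ _ _, ?_⟩
        intro b hb
        rw [Multiset.mem_cons] at hb
        rcases hb with rfl | hb
        · exact h
        · exact hv b hb
      · refine ⟨a, z ::ₘ v, rfl, ?_⟩
        intro b hb
        rw [Multiset.mem_cons] at hb
        rcases hb with rfl | hb
        · exact h
        · exact (hv b hb).trans h

/-- a solution with `n ≥ 3` entries has at least two entries `≥ 2`. -/
lemma IsSol.exists_two {n : ℕ} (hn : 3 ≤ n) {w : Multiset ℕ} (hw : IsSol n w) :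
    ∃ y z w', w = z ::ₘ y ::ₘ w' ∧ y ≤ z ∧ ∀ a ∈ w', a ≤ y := by
  obtain ⟨h1, h2, h3⟩ := hw
  have hw0 : w ≠ 0 := by
    rintro rfl
    simp at h3
    nlinarith
  obtain ⟨z, v, rfl, hv⟩ := exists_max w hw0
  have hv0 : v ≠ 0 := by
    rintro rfl
    have hz : 2 ≤ z := h1 z (by simp)
    obtain ⟨b, rfl⟩ : ∃ b, z = b + 2 := ⟨z - 2, by omega⟩
    simp only [rr_cons, rr_zero, gg_cons, gg_zero, Multiset.prod_cons, Multiset.prod_zero] at h3
    have e : b + 2 - 1 = b + 1 := by omega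
    rw [e] at h3
    nlinarith
  obtain ⟨y, w', rfl, hw'⟩ := exists_max v hv0
  exact ⟨y, z, w', rfl, hv y (by simp), hw'⟩

lemma IsSol.eq_two {n y z : ℕ} {w' : Multiset ℕ} (hw : IsSol n (z ::ₘ y ::ₘ w')) :
    2 ≤ n ∧ (n - 2 + rr w') ^ 2 + 2 * (n - 2 + rr w') * (y + z) + 2 * (y * z) =
      (n - 2 + rr w') + 2 * w'.prod * (y * z) + gg w' := by
  obtain ⟨h1, h2, h3⟩ := hw
  have hz : 2 ≤ z := h1 z (by simp)
  have hy : 2 ≤ y := h1 y (by simp)
  simp only [Multiset.card_cons] at h2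
  simp only [rr_cons, gg_cons, Multiset.prod_cons] at h3
  refine ⟨by omega, ?_⟩
  obtain ⟨a, rfl⟩ : ∃ a, y = a + 1 := ⟨y - 1, by omega⟩
  obtain ⟨b, rfl⟩ : ∃ b, z = b + 1 := ⟨z - 1, by omega⟩
  obtain ⟨m, rfl⟩ : ∃ m, n = m + 2 := ⟨n - 2, by omega⟩
  simp only [Nat.add_sub_cancel] at h3 ⊢
  nlinarith

lemma IsSol.bounds {n y z : ℕ} {w' : Multiset ℕ} (hn : 3 ≤ n)
    (hw : IsSol n (z ::ₘ y ::ₘ w')) (hyz : y ≤ z) (hw' : ∀ a ∈ w', a ≤ y) :
    2 ≤ w'.prod ∧ 2 * w'.prod ≤ n ^ 2 ∧ y ≤ 5 * n := by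
  obtain ⟨_, heq⟩ := hw.eq_two
  obtain ⟨h1, h2, h3⟩ := hw
  have hz : 2 ≤ z := h1 z (by simp)
  have hy : 2 ≤ y := h1 y (by simp)
  have h1' : ∀ a ∈ w', 2 ≤ a := fun a ha => h1 a (by simp [ha])
  simp only [Multiset.card_cons] at h2
  obtain ⟨m, rfl⟩ : ∃ m, n = m + 2 := ⟨n - 2, by omega⟩
  simp only [Nat.add_sub_cancel] at heq
  have hm : 1 ≤ m := by omega
  set c := m + rr w' with hc
  set Q := w'.prod with hQ
  have hQ1 : 1 ≤ Q := prod_pos_of_ge_two w' h1'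
  have hQ2 : 2 ≤ Q := by
    by_contra hcon
    have hQ1' : Q = 1 := by omega
    have hcard := two_pow_card_le w' h1'
    rw [← hQ, hQ1'] at hcard
    have hcard0 : Multiset.card w' = 0 := by
      by_contra h
      have : 2 ≤ 2 ^ Multiset.card w' := by
        calc 2 = 2 ^ 1 := by norm_num
          _ ≤ 2 ^ Multiset.card w' := Nat.pow_le_pow_right (by norm_num) (by omega)
      omega
    rw [Multiset.card_eq_zero] at hcard0
    rw [hcard0] at hc heq
    simp only [rr_zero, gg_zero, add_zero] at hc heq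
    rw [hQ1'] at heq
    nlinarith
  have hrr1 : rr w' ≤ m * (y - 1) :=
    (rr_le_card_mul w' y hw').trans (Nat.mul_le_mul_right _ (by omega))
  have hcy : c ≤ m * y := by
    obtain ⟨b, rfl⟩ : ∃ b, y = b + 1 := ⟨y - 1, by omega⟩
    simp only [Nat.add_sub_cancel] at hrr1
    nlinarith
  have hrr2 : rr w' + 1 ≤ Q := rr_add_one_le_prod w' h1'
  have hyzpos : 0 < y * z := by positivity
  have hQn : 2 * Q ≤ (m + 2) ^ 2 := by
    have e1 : 2 * Q * (y * z) ≤ c ^ 2 + 2 * c * (y + z) + 2 * (y * z) := by omega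
    have e2 : c ^ 2 ≤ m ^ 2 * (y * z) := by
      calc c ^ 2 ≤ (m * y) ^ 2 := Nat.pow_le_pow_left hcy 2
        _ = m ^ 2 * (y * y) := by ring
        _ ≤ m ^ 2 * (y * z) := by gcongr
    have e3 : 2 * c * (y + z) ≤ 4 * m * (y * z) := by
      calc 2 * c * (y + z) ≤ 2 * (m * y) * (z + z) := by gcongr
        _ = 4 * m * (y * z) := by ring
    have e4 : 2 * Q * (y * z) ≤ (m + 2) ^ 2 * (y * z) := by nlinarith
    exact Nat.le_of_mul_le_mul_right e4 hyzpos
  refine ⟨hQ2, hQn, ?_⟩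
  -- the bound on y
  obtain ⟨A, hA⟩ : ∃ A, Q = A + 1 := ⟨Q - 1, by omega⟩
  have hA1 : 1 ≤ A := by omega
  have hcA : c ≤ m + A := by omega
  have f1 : 2 * A * (y * z) ≤ c ^ 2 + 4 * c * z := by
    have : 2 * c * (y + z) ≤ 4 * c * z := by
      calc 2 * c * (y + z) ≤ 2 * c * (z + z) := by gcongr
        _ = 4 * c * z := by ring
    rw [hA] at heq
    nlinarith
  have f2 : 2 * A * y ^ 2 ≤ c ^ 2 + 4 * c * y := by
    have : (2 * A * y ^ 2) * z ≤ (c ^ 2 + 4 * c * y) * z := by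
      calc (2 * A * y ^ 2) * z = y * (2 * A * (y * z)) := by ring
        _ ≤ y * (c ^ 2 + 4 * c * z) := by gcongr
        _ = c ^ 2 * y + 4 * c * y * z := by ring
        _ ≤ c ^ 2 * z + 4 * c * y * z := by gcongr
        _ = _ := by ring
    exact Nat.le_of_mul_le_mul_right this (by omega)
  have f3 : 2 * A * y ^ 2 ≤ (m + A) ^ 2 + 4 * (m + A) * y := by
    refine f2.trans ?_
    gcongr
  by_contra hcon
  push Not at hcon
  rcases le_or_gt A m with hAm | hAm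
  · have f4 : 2 * y ^ 2 ≤ 4 * m ^ 2 + 8 * m * y := by
      calc 2 * y ^ 2 ≤ 2 * A * y ^ 2 := by nlinarith [Nat.zero_le (y ^ 2)]
        _ ≤ (m + A) ^ 2 + 4 * (m + A) * y := f3
        _ ≤ (m + m) ^ 2 + 4 * (m + m) * y := by gcongr
        _ = _ := by ring
    nlinarith
  · have f4 : 2 * A * y ^ 2 ≤ 2 * A * (2 * A + 4 * y) := by
      calc 2 * A * y ^ 2 ≤ (m + A) ^ 2 + 4 * (m + A) * y := f3
        _ ≤ (A + A) ^ 2 + 4 * (A + A) * y := by gcongr
        _ = _ := by ring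
    have f5 : y ^ 2 ≤ 2 * A + 4 * y := Nat.le_of_mul_le_mul_left f4 (by omega)
    have f6 : 2 * A ≤ (m + 2) ^ 2 := by omega
    nlinarith

/-- equation with the largest entry separated. -/
lemma IsSol.eq_one {n z : ℕ} {v : Multiset ℕ} (hn : 1 ≤ n) (hw : IsSol n (z ::ₘ v)) :
    (n - 1 + rr v) ^ 2 + 2 * z * (n - 1 + rr v) = (n - 1 + rr v) + 2 * z * v.prod + gg v := by
  obtain ⟨h1, h2, h3⟩ := hw
  have hz : 2 ≤ z := h1 z (by simp)
  simp only [rr_cons, gg_cons, Multiset.prod_cons] at h3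
  obtain ⟨b, rfl⟩ : ∃ b, z = b + 1 := ⟨z - 1, by omega⟩
  obtain ⟨m, rfl⟩ : ∃ m, n = m + 1 := ⟨n - 1, by omega⟩
  simp only [Nat.add_sub_cancel] at h3 ⊢
  nlinarith

lemma gg_add_sum_le (w : Multiset ℕ) (hw : ∀ a ∈ w, 1 ≤ a) : gg w + w.sum ≤ w.sum ^ 2 := by
  have h1 := sq_sum_eq w
  have h2 := sum_sq_eq w hw
  omega

/-- positivity of `d = prod v - u`. -/
lemma IsSol.u_lt {n y z : ℕ} {w' : Multiset ℕ} (hn : 3 ≤ n)
    (hw : IsSol n (z ::ₘ y ::ₘ w')) (hw'0 : w' ≠ 0) :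
    n - 1 + rr (y ::ₘ w') < (y ::ₘ w').prod ∧
    (n - 1 + rr (y ::ₘ w')) + gg (y ::ₘ w') < (n - 1 + rr (y ::ₘ w')) ^ 2 := by
  have heq := hw.eq_one (by omega)
  obtain ⟨h1, h2, h3⟩ := hw
  have hz : 2 ≤ z := h1 z (by simp)
  have hy : 2 ≤ y := h1 y (by simp)
  have h1' : ∀ a ∈ w', 1 ≤ a := fun a ha => by
    have := h1 a (by simp [ha])
    omega
  simp only [Multiset.card_cons] at h2
  set v := y ::ₘ w' with hv
  have hv1 : ∀ a ∈ v, 1 ≤ a := by
    intro a ha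
    rw [hv, Multiset.mem_cons] at ha
    rcases ha with rfl | ha
    · omega
    · exact h1' a ha
  have hsum : v.sum = Multiset.card v + rr v := sum_eq_card_add_rr v hv1
  have hcardv : Multiset.card v = Multiset.card w' + 1 := by rw [hv, Multiset.card_cons]
  set u := n - 1 + rr v with hu
  have hus : v.sum ≤ u := by omega
  have hs'pos : 1 ≤ w'.sum := by
    obtain ⟨a, ha⟩ := Multiset.exists_mem_of_ne_zero hw'0
    have h5 : a ≤ w'.sum := Multiset.single_le_sum (fun _ _ => Nat.zero_le _) a ha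
    have := h1' a ha
    omega
  have hgg' := gg_add_sum_le w' h1'
  have hggv : gg v = y * (y - 1) + gg w' := by rw [hv, gg_cons]
  have hsv : v.sum = y + w'.sum := by rw [hv, Multiset.sum_cons]
  have key : v.sum + gg v < v.sum ^ 2 := by
    rw [hggv, hsv]
    obtain ⟨b, rfl⟩ : ∃ b, y = b + 1 := ⟨y - 1, by omega⟩
    simp only [Nat.add_sub_cancel]
    nlinarith
  have key2 : u + gg v < u ^ 2 := by
    obtain ⟨e, he⟩ := Nat.exists_eq_add_of_le hus
    rw [he]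
    have : 1 ≤ v.sum := by omega
    nlinarith
  refine ⟨?_, key2⟩
  by_contra hcon
  push Not at hcon
  have : 2 * z * v.prod ≤ 2 * z * u := Nat.mul_le_mul_left _ hcon
  omega

end Pool.Agent.Hhelper87
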