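import Mathlib
import Pool.Agent.Hhelper87.SigmaTwo.Struct

/-!
A construction of many solutions.
-/

namespace Pool.Agent.Hhelper87

open Finset

/-- the `k`-th prime -/
noncomputable def qq (k : ℕ) : ℕ := Nat.nth Nat.Prime k

lemma qq_prime (k : ℕ) : (qq k).Prime := Nat.prime_nth_prime k

lemma qq_inj : Function.Injective qq := Nat.nth_injective Nat.infinite_setOfPred_prime

lemma qq_le {k x : ℕ} (h : k < Nat.primeCounting x) : qq k ≤ x := by
  have : qq k < x + 1 := Nat.nth_lt_of_lt_count h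
  omega

/-- the parts: products of `l + 1` primes, one from each block. -/
noncomputable def part (l j : ℕ) (σ : Fin l → Equiv.Perm (Fin j)) (i : Fin j) : ℕ :=
  qq i * ∏ s : Fin l, qq (j * ((s : ℕ) + 1) + (σ s i : ℕ))

/-- the multiset of parts -/
noncomputable def vv (l j : ℕ) (σ : Fin l → Equiv.Perm (Fin j)) : Multiset ℕ :=
  (Finset.univ : Finset (Fin j)).val.map (part l j σ)

/-- the product of all parts -/
noncomputable def PP (l j : ℕ) : ℕ :=
  (∏ i : Fin j, qq i) * ∏ s : Fin l, ∏ i : Fin j, qq (j * ((s : ℕ) + 1) + (i : ℕ))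

lemma vv_prod (l j : ℕ) (σ : Fin l → Equiv.Perm (Fin j)) : (vv l j σ).prod = PP l j := by
  unfold vv PP
  have : ((Finset.univ : Finset (Fin j)).val.map (part l j σ)).prod =
      ∏ i : Fin j, part l j σ i := rfl
  rw [this]
  unfold part
  rw [Finset.prod_mul_distrib, Finset.prod_comm]
  congr 1
  apply Finset.prod_congr rfl
  intro s _
  exact Equiv.prod_comp (σ s) (fun i => qq (j * ((s : ℕ) + 1) + (i : ℕ)))

lemma card_vv (l j : ℕ) (σ : Fin l → Equiv.Perm (Fin j)) : Multiset.card (vv l j σ) = j := by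
  simp [vv]

lemma part_ge_two (l j : ℕ) (σ : Fin l → Equiv.Perm (Fin j)) (i : Fin j) :
    2 ≤ part l j σ i := by
  unfold part
  have h1 : 2 ≤ qq i := (qq_prime _).two_le
  have h2 : 1 ≤ ∏ s : Fin l, qq (j * ((s : ℕ) + 1) + (σ s i : ℕ)) :=
    Finset.prod_pos (fun s _ => (qq_prime _).pos)
  nlinarith

lemma index_inj {j : ℕ} {s s' : ℕ} {i i' : ℕ} (hi : i < j) (hi' : i' < j)
    (h : j * s + i = j * s' + i') : s = s' ∧ i = i' := by
  have hj : 0 < j := by omega
  have h1 : (j * s + i) / j = s := by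
    rw [Nat.mul_add_div hj, Nat.div_eq_of_lt hi, add_zero]
  have h2 : (j * s' + i') / j = s' := by
    rw [Nat.mul_add_div hj, Nat.div_eq_of_lt hi', add_zero]
  have h3 : s = s' := by rw [← h1, h, h2]
  subst h3
  exact ⟨rfl, by omega⟩

lemma vv_inj (l j : ℕ) : Function.Injective (vv l j) := by
  intro σ τ h
  have hpart : ∀ i, part l j σ i = part l j τ i := by
    intro i
    have hmem : part l j σ i ∈ vv l j τ := by
      rw [← h]
      exact Multiset.mem_map_of_mem _ (Finset.mem_univ i)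
    unfold vv at hmem
    rw [Multiset.mem_map] at hmem
    obtain ⟨i', _, hi'⟩ := hmem
    have hdvd : qq i ∣ part l j τ i' := by
      rw [hi']
      exact Dvd.intro _ rfl
    have hpr : Nat.Prime (qq i) := qq_prime _
    unfold part at hdvd
    rcases hpr.prime.dvd_or_dvd hdvd with hd | hd
    · have := (Nat.prime_dvd_prime_iff_eq (qq_prime _) (qq_prime _)).mp hd
      have h2 : (i : ℕ) = (i' : ℕ) := qq_inj this
      have h3 : i = i' := Fin.ext h2
      rw [← hi', h3]
    · exfalso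
      rw [hpr.prime.dvd_finsetProd_iff] at hd
      obtain ⟨s, _, hs⟩ := hd
      have := (Nat.prime_dvd_prime_iff_eq (qq_prime _) (qq_prime _)).mp hs
      have h2 : (i : ℕ) = j * ((s : ℕ) + 1) + ((τ s) i' : ℕ) := qq_inj this
      have h3 := i.isLt
      nlinarith [Nat.zero_le (j * (s : ℕ))]
  funext s
  ext i
  have h1 := hpart i
  unfold part at h1
  have h2 := Nat.eq_of_mul_eq_mul_left (qq_prime (i : ℕ)).pos h1
  have hpr : Nat.Prime (qq (j * ((s : ℕ) + 1) + (σ s i : ℕ))) := qq_prime _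
  have hd : qq (j * ((s : ℕ) + 1) + (σ s i : ℕ)) ∣
      ∏ s : Fin l, qq (j * ((s : ℕ) + 1) + (τ s i : ℕ)) := by
    rw [← h2]
    exact Finset.dvd_prod_of_mem (fun s : Fin l => qq (j * ((s : ℕ) + 1) + (σ s i : ℕ)))
      (Finset.mem_univ s)
  rw [hpr.prime.dvd_finsetProd_iff] at hd
  obtain ⟨s', _, hs'⟩ := hd
  have h3 := qq_inj ((Nat.prime_dvd_prime_iff_eq (qq_prime _) (qq_prime _)).mp hs')
  have h4 := index_inj (σ s i).isLt (τ s' i).isLt h3
  have h5 : s = s' := Fin.ext (by omega)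
  subst h5
  exact h4.2

lemma part_le (l j x : ℕ) (hx : j * (l + 1) ≤ Nat.primeCounting x)
    (σ : Fin l → Equiv.Perm (Fin j)) (i : Fin j) : part l j σ i ≤ x ^ (l + 1) := by
  have hq : ∀ k < j * (l + 1), qq k ≤ x := fun k hk => qq_le (by omega)
  unfold part
  have h1 : qq i ≤ x := hq _ (by
    have := i.isLt
    nlinarith [Nat.zero_le (j * l)])
  have h2 : ∏ s : Fin l, qq (j * ((s : ℕ) + 1) + (σ s i : ℕ)) ≤ ∏ _s : Fin l, x := by
    apply Finset.prod_le_prod'
    intro s _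
    apply hq
    have h3 := (σ s i).isLt
    have h4 := s.isLt
    calc j * ((s : ℕ) + 1) + ((σ s) i : ℕ) < j * ((s : ℕ) + 1) + j := by omega
      _ = j * ((s : ℕ) + 1 + 1) := by ring
      _ ≤ j * (l + 1) := Nat.mul_le_mul_left _ (by omega)
  rw [Finset.prod_const, Finset.card_univ, Fintype.card_fin] at h2
  calc _ ≤ x * x ^ l := Nat.mul_le_mul h1 h2
    _ = x ^ (l + 1) := by ring

lemma PP_le (l j x : ℕ) (hx : j * (l + 1) ≤ Nat.primeCounting x) :
    PP l j ≤ x ^ ((l + 1) * j) := by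
  have h := vv_prod l j (fun _ => Equiv.refl _)
  rw [← h]
  have h2 := Multiset.prod_le_pow_card (vv l j (fun _ => Equiv.refl _)) (x ^ (l + 1)) (by
    intro a ha
    unfold vv at ha
    rw [Multiset.mem_map] at ha
    obtain ⟨i, _, rfl⟩ := ha
    exact part_le l j x hx _ i)
  rw [card_vv, ← pow_mul] at h2
  exact h2

lemma vv_ge_two (l j : ℕ) (σ : Fin l → Equiv.Perm (Fin j)) : ∀ a ∈ vv l j σ, 2 ≤ a := by
  intro a ha
  unfold vv at ha
  rw [Multiset.mem_map] at ha
  obtain ⟨i, _, rfl⟩ := ha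
  exact part_ge_two l j σ i

lemma le_PP (l j : ℕ) : 2 ^ j ≤ PP l j := by
  have h := vv_prod l j (fun _ => Equiv.refl _)
  rw [← h]
  have h2 := two_pow_card_le (vv l j (fun _ => Equiv.refl _)) (vv_ge_two l j _)
  rwa [card_vv] at h2

lemma vv_le (l j x : ℕ) (hx : j * (l + 1) ≤ Nat.primeCounting x)
    (σ : Fin l → Equiv.Perm (Fin j)) : ∀ a ∈ vv l j σ, a ≤ x ^ (l + 1) := by
  intro a ha
  unfold vv at ha
  rw [Multiset.mem_map] at ha
  obtain ⟨i, _, rfl⟩ := ha
  exact part_le l j x hx σ i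

lemma lower_pigeon (l j x : ℕ) (hx : j * (l + 1) ≤ Nat.primeCounting x) :
    ∃ r0 g0, r0 ≤ j * x ^ (l + 1) ∧ g0 ≤ j * (x ^ (l + 1)) ^ 2 ∧ ∃ A : Finset (Multiset ℕ),
      (∀ v ∈ A, (∀ a ∈ v, 2 ≤ a) ∧ Multiset.card v = j ∧ v.prod = PP l j ∧ rr v = r0 ∧
        gg v = g0) ∧
      (j.factorial) ^ l ≤ A.card * ((j * x ^ (l + 1) + 1) * (j * (x ^ (l + 1)) ^ 2 + 1)) := by
  classical
  let Y := x ^ (l + 1)
  let T : Finset (ℕ × ℕ) := Finset.range (j * Y + 1) ×ˢ Finset.range (j * Y ^ 2 + 1)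
  let F : Finset (Multiset ℕ) := (Finset.univ : Finset (Fin l → Equiv.Perm (Fin j))).image (vv l j)
  have hF : F.card = (j.factorial) ^ l := by
    rw [Finset.card_image_of_injective _ (vv_inj l j), Finset.card_univ, Fintype.card_fun,
      Fintype.card_perm, Fintype.card_fin, Fintype.card_fin]
  have hmaps : ∀ v ∈ F, (rr v, gg v) ∈ T := by
    intro v hv
    rw [Finset.mem_image] at hv
    obtain ⟨σ, _, rfl⟩ := hv
    have h1 := rr_le_card_mul (vv l j σ) Y (vv_le l j x hx σ)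
    have h2 := gg_le_card_mul (vv l j σ) Y (vv_le l j x hx σ)
    rw [card_vv] at h1 h2
    simp only [T, Finset.mem_product, Finset.mem_range]
    constructor
    · have : j * (Y - 1) ≤ j * Y := Nat.mul_le_mul_left _ (by omega)
      omega
    · have : j * (Y * Y) = j * Y ^ 2 := by ring
      omega
  have hTne : T.Nonempty := ⟨(0, 0), by simp [T]⟩
  -- pigeonhole
  by_contra hcon
  push Not at hcon
  have hTcard : T.card = (j * Y + 1) * (j * Y ^ 2 + 1) := by
    simp [T, Finset.card_product]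
  have hfib : ∀ y ∈ T, (F.filter (fun v => (rr v, gg v) = y)).card * T.card < F.card := by
    rintro ⟨r0, g0⟩ hy
    simp only [T, Finset.mem_product, Finset.mem_range] at hy
    have := hcon r0 g0 (Nat.lt_succ_iff.mp hy.1) (Nat.lt_succ_iff.mp hy.2) (F.filter (fun v => (rr v, gg v) = (r0, g0))) (by
      intro v hv
      rw [Finset.mem_filter] at hv
      obtain ⟨hvF, hveq⟩ := hv
      rw [Prod.mk.injEq] at hveq
      rw [Finset.mem_image] at hvF
      obtain ⟨σ, _, rfl⟩ := hvF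
      exact ⟨vv_ge_two l j σ, card_vv l j σ, vv_prod l j σ, hveq.1, hveq.2⟩)
    rw [hF, hTcard]
    exact this
  have hsum : F.card = ∑ y ∈ T, (F.filter (fun v => (rr v, gg v) = y)).card :=
    Finset.card_eq_sum_card_fiberwise hmaps
  have h3 : F.card * T.card < F.card * T.card := by
    calc F.card * T.card = ∑ y ∈ T, (F.filter (fun v => (rr v, gg v) = y)).card * T.card := by
          rw [← Finset.sum_mul, ← hsum]
      _ < ∑ y ∈ T, F.card := Finset.sum_lt_sum_of_nonempty hTne hfib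
      _ = F.card * T.card := by rw [Finset.sum_const, smul_eq_mul, mul_comm]
  exact lt_irrefl _ h3

lemma gg_even (w : Multiset ℕ) : 2 ∣ gg w := by
  induction w using Multiset.induction with
  | empty => simp
  | cons a s ih =>
    rw [gg_cons]
    apply dvd_add _ ih
    exact (Nat.even_mul_pred_self a).two_dvd

/-- from the pigeonhole family to solutions. -/
lemma family_to_sol (j P r0 g0 : ℕ) (A : Finset (Multiset ℕ))
    (hA : ∀ v ∈ A, (∀ a ∈ v, 2 ≤ a) ∧ Multiset.card v = j ∧ v.prod = P ∧ rr v = r0 ∧ gg v = g0)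
    (hn : j + 1 + r0 ≤ P) (hg : g0 + 4 + (P - 1) ≤ (P - 1) ^ 2) :
    ∃ A' : Finset (Multiset ℕ), A'.card = A.card ∧ ∀ w ∈ A', IsSol (P - r0) w := by
  classical
  rcases A.eq_empty_or_nonempty with rfl | ⟨v0, hv0⟩
  · exact ⟨∅, rfl, by simp⟩
  have hgeven : 2 ∣ g0 := by
    rw [← (hA v0 hv0).2.2.2.2]; exact gg_even v0
  set u := P - 1 with hu
  obtain ⟨z, hz⟩ : ∃ z, u ^ 2 = u + g0 + 2 * z := by
    have h1 : 2 ∣ u ^ 2 - u := by
      have : u ^ 2 - u = u * (u - 1) := by
        rw [Nat.mul_sub, mul_one, sq]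
      rw [this]
      exact (Nat.even_mul_pred_self u).two_dvd
    obtain ⟨z, hz⟩ : 2 ∣ u ^ 2 - u - g0 := Nat.dvd_sub h1 hgeven
    exact ⟨z, by omega⟩
  have hz2 : 2 ≤ z := by omega
  refine ⟨A.image (fun v => z ::ₘ v), ?_, ?_⟩
  · apply Finset.card_image_of_injective
    intro a b h
    exact (Multiset.cons_inj_right z).mp h
  · intro w hw
    rw [Finset.mem_image] at hw
    obtain ⟨v, hv, rfl⟩ := hw
    obtain ⟨h1, h2, h3, h4, h5⟩ := hA v hv
    refine ⟨?_, ?_, ?_⟩
    · intro a ha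
      rw [Multiset.mem_cons] at ha
      rcases ha with rfl | ha
      · exact hz2
      · exact h1 a ha
    · rw [Multiset.card_cons, h2]; omega
    · rw [rr_cons, gg_cons, Multiset.prod_cons, h3, h4, h5]
      have e1 : P - r0 + (z - 1 + r0) = u + z := by omega
      have e2 : P = u + 1 := by omega
      rw [e1, e2]
      obtain ⟨b, rfl⟩ : ∃ b, z = b + 1 := ⟨z - 1, by omega⟩
      simp only [Nat.add_sub_cancel]
      nlinarith

end Pool.Agent.Hhelper87
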