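import Mathlib
import Pool.Agent.Hhelper87.SigmaTwo.Lower

/-!
For arbitrarily large `n` there are at least `n ^ (180/181)` solutions.
-/

namespace Pool.Agent.Hhelper87

open Finset Filter

lemma primes_enough : ∀ᶠ t : ℕ in atTop, t ^ 599 * (599 + 1) ≤ Nat.primeCounting (t ^ 600) := by
  have h1 : ∀ᶠ t : ℕ in atTop, Real.log t ≤ Real.log 2 / 360601 * t := by
    have h := Real.isLittleO_log_id_atTop
    have h2 := (h.comp_tendsto tendsto_natCast_atTop_atTop).def
      (show (0 : ℝ) < Real.log 2 / 360601 by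
        have := Real.log_pos (by norm_num : (1 : ℝ) < 2)
        positivity)
    filter_upwards [h2, eventually_ge_atTop 1] with t ht ht1
    simp only [Function.comp_apply, id_eq, Real.norm_eq_abs] at ht
    rw [abs_of_nonneg (Real.log_nonneg (by exact_mod_cast ht1)),
      abs_of_nonneg (Nat.cast_nonneg t)] at ht
    exact ht
  filter_upwards [h1, eventually_ge_atTop 2] with t ht ht2
  have ht2r : (2 : ℝ) ≤ t := by exact_mod_cast ht2
  have ht0 : (0 : ℝ) < t := by linarith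
  have hL : 0 < Real.log t := Real.log_pos (by linarith)
  have hpi := Chebyshev.pi_ge (t ^ 600)
  push_cast at hpi
  have e1 : Real.log ((t : ℝ) ^ 600) = 600 * Real.log t := by
    rw [Real.log_pow]; norm_num
  have e2 : Real.log ((t : ℝ) ^ 600 + 1) ≤ 601 * Real.log t := by
    have : Real.log ((t : ℝ) ^ 601) = 601 * Real.log t := by
      rw [Real.log_pow]; norm_num
    rw [← this]
    apply Real.log_le_log (by positivity)
    have h3 : (1 : ℝ) ≤ (t : ℝ) ^ 600 := one_le_pow₀ (by linarith)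
    calc (t : ℝ) ^ 600 + 1 ≤ (t : ℝ) ^ 600 * 2 := by linarith
      _ ≤ (t : ℝ) ^ 600 * t := by gcongr
      _ = (t : ℝ) ^ 601 := by ring
  rw [e1] at hpi
  have e3 : (t : ℝ) ^ 599 * 600 ≤
      ((t : ℝ) ^ 600 * Real.log 2 - Real.log ((t : ℝ) ^ 600 + 1)) / (600 * Real.log t) := by
    rw [le_div_iff₀ (by positivity)]
    have h4 : 360601 * Real.log t ≤ Real.log 2 * t := by
      have := mul_le_mul_of_nonneg_left ht (by norm_num : (0 : ℝ) ≤ 360601)
      calc 360601 * Real.log t ≤ 360601 * (Real.log 2 / 360601 * t) := this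
        _ = Real.log 2 * t := by ring
    have h5 : (1 : ℝ) ≤ (t : ℝ) ^ 599 := one_le_pow₀ (by linarith)
    have h6 : (t : ℝ) ^ 599 * (360601 * Real.log t) ≤ (t : ℝ) ^ 599 * (Real.log 2 * t) :=
      mul_le_mul_of_nonneg_left h4 (by positivity)
    have h7 : 601 * Real.log t ≤ (t : ℝ) ^ 599 * (601 * Real.log t) := by
      have : 0 ≤ 601 * Real.log t := by positivity
      nlinarith
    have h8 : (t : ℝ) ^ 600 * Real.log 2 = (t : ℝ) ^ 599 * (Real.log 2 * t) := by ring
    rw [h8]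
    nlinarith
  have e4 : ((t ^ 599 * (599 + 1) : ℕ) : ℝ) ≤ ((Nat.primeCounting (t ^ 600) : ℕ) : ℝ) := by
    have e5 : ((t ^ 599 * (599 + 1) : ℕ) : ℝ) = (t : ℝ) ^ 599 * 600 := by
      push_cast
      norm_num
    rw [e5]
    exact e3.trans hpi
  exact_mod_cast e4

lemma factorial_ge (t j : ℕ) (ht : 3 ≤ t) (k : ℕ) (hj : j = t ^ (k + 1)) :
    t ^ (k * j) ≤ j.factorial := by
  have h1 := Real.pow_div_factorial_le_exp (j : ℝ) (Nat.cast_nonneg j) j
  have h2 : Real.exp (j : ℝ) ≤ (t : ℝ) ^ j := by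
    have : Real.exp (j : ℝ) = (Real.exp 1) ^ j := by
      rw [← Real.exp_nat_mul, mul_one]
    rw [this]
    apply pow_le_pow_left₀ (Real.exp_pos 1).le
    have h3 := Real.exp_one_lt_d9
    have h4 : (3 : ℝ) ≤ t := by exact_mod_cast ht
    linarith
  have hfac : (0 : ℝ) < (j.factorial : ℝ) := by exact_mod_cast Nat.factorial_pos j
  have h3 : (j : ℝ) ^ j ≤ (t : ℝ) ^ j * (j.factorial : ℝ) := by
    rw [div_le_iff₀ hfac] at h1
    exact h1.trans (mul_le_mul_of_nonneg_right h2 hfac.le)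
  have h4 : (j : ℝ) ^ j = (t : ℝ) ^ j * (t : ℝ) ^ (k * j) := by
    have : (j : ℝ) = (t : ℝ) ^ (k + 1) := by rw [hj]; push_cast; rfl
    conv_lhs => rw [this]
    rw [← pow_mul, ← pow_add]
    congr 1; ring
  rw [h4] at h3
  have ht0 : (0 : ℝ) < (t : ℝ) ^ j := by
    have : (0 : ℝ) < t := by
      have : 0 < t := by omega
      exact_mod_cast this
    positivity
  have h5 := le_of_mul_le_mul_left h3 ht0
  exact_mod_cast h5

lemma add_one_le_pow_succ (t a : ℕ) (ht : 2 ≤ t) : t ^ a + 1 ≤ t ^ (a + 1) := by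
  have h1 : 1 ≤ t ^ a := Nat.one_le_pow _ _ (by omega)
  calc t ^ a + 1 ≤ t ^ a * 2 := by omega
    _ ≤ t ^ a * t := Nat.mul_le_mul_left _ ht
    _ = t ^ (a + 1) := by ring

theorem lower (M : ℕ) : ∃ P n : ℕ, M ≤ n ∧ n ≤ P ∧ ∃ A : Finset (Multiset ℕ),
    (∀ w ∈ A, IsSol n w) ∧ P ^ 180 ≤ A.card ^ 181 := by
  have hexp : ∀ᶠ t : ℕ in atTop, t ^ 720602 ≤ 2 ^ t := by
    have h := tendsto_pow_const_div_const_pow_of_one_lt 720602 (by norm_num : (1 : ℝ) < 2)
    have h2 := h.eventually (gt_mem_nhds (by norm_num : (0 : ℝ) < 1))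
    filter_upwards [h2] with t ht
    rw [div_lt_iff₀ (by positivity), one_mul] at ht
    exact_mod_cast ht.le
  obtain ⟨t, ht1, ht2, ht3⟩ := (primes_enough.and (hexp.and
    (eventually_ge_atTop (M + 1081200)))).exists
  set j := t ^ 599 with hj
  have htj : t ≤ j := by
    calc t = t ^ 1 := (pow_one t).symm
      _ ≤ t ^ 599 := Nat.pow_le_pow_right (by omega) (by norm_num)
  obtain ⟨r0, g0, hr0, hg0, A, hA, hcard⟩ := lower_pigeon 599 j (t ^ 600) ht1
  have e600 : (t ^ 600) ^ (599 + 1) = t ^ 360000 := by rw [← pow_mul]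
  rw [e600] at hr0 hg0 hcard
  have er : j * t ^ 360000 = t ^ 360599 := by rw [hj, ← pow_add]
  have eg : j * (t ^ 360000) ^ 2 = t ^ 720599 := by rw [hj, ← pow_mul, ← pow_add]
  rw [er] at hr0 hcard
  rw [eg] at hg0 hcard
  set P := PP 599 j with hP
  have hP1 : 2 ^ j ≤ P := le_PP 599 j
  have hP2 : P ≤ t ^ (360000 * j) := by
    have := PP_le 599 j (t ^ 600) ht1
    rw [← pow_mul] at this
    have e : 600 * ((599 + 1) * j) = 360000 * j := by ring
    rwa [e] at this
  have hbig : t ^ 720602 ≤ P :=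
    ht2.trans ((Nat.pow_le_pow_right (by norm_num) htj).trans hP1)
  have htpos : 1 ≤ t := by omega
  have hb1 : t ^ 720601 * t ≤ P := by rw [← pow_succ]; exact hbig
  have hb2 : t ^ 720601 + t ^ 720601 * (M + 3) ≤ P := by
    calc t ^ 720601 + t ^ 720601 * (M + 3) = t ^ 720601 * (M + 4) := by ring
      _ ≤ t ^ 720601 * t := Nat.mul_le_mul_left _ (by omega)
      _ ≤ P := hb1
  have hone : 1 ≤ t ^ 720601 := Nat.one_le_pow _ _ htpos
  have hb3 : M + 3 ≤ t ^ 720601 * (M + 3) := Nat.le_mul_of_pos_left _ hone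
  have hr1 : t ^ 360599 ≤ t ^ 720600 := Nat.pow_le_pow_right htpos (by norm_num)
  have hj1 : j ≤ t ^ 720600 := Nat.pow_le_pow_right htpos (by norm_num)
  have hg1 : t ^ 720599 ≤ t ^ 720600 := Nat.pow_le_pow_right htpos (by norm_num)
  have hs1 : t ^ 720600 * 5 ≤ t ^ 720601 := by
    rw [pow_succ]
    exact Nat.mul_le_mul_left _ (by omega)
  have hs0 : 1 ≤ t ^ 720600 := Nat.one_le_pow _ _ htpos
  have hn : j + 1 + r0 ≤ P := by omega
  have hgcond : g0 + 4 + (P - 1) ≤ (P - 1) ^ 2 := by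
    obtain ⟨s, hs⟩ : ∃ s, P - 1 = s + 1 := ⟨P - 2, by omega⟩
    rw [hs]
    have : g0 + 4 ≤ s := by omega
    nlinarith
  obtain ⟨A', hA'card, hA'⟩ := family_to_sol j P r0 g0 A hA hn hgcond
  refine ⟨P, P - r0, by omega, by omega, A', hA', ?_⟩
  rw [hA'card]
  -- the size of A
  clear_value P
  clear_value j
  have hfac : t ^ (598 * j) ≤ j.factorial := factorial_ge t j (by omega) 598 hj
  have hR : (t ^ 360599 + 1) * (t ^ 720599 + 1) ≤ t ^ j := by
    calc (t ^ 360599 + 1) * (t ^ 720599 + 1) ≤ t ^ 360600 * t ^ 720600 :=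
          Nat.mul_le_mul (add_one_le_pow_succ t 360599 (by omega))
            (add_one_le_pow_succ t 720599 (by omega))
      _ = t ^ 1081200 := by rw [← pow_add]
      _ ≤ t ^ j := Nat.pow_le_pow_right htpos (by omega)
  have h1 : t ^ (358202 * j) ≤ A.card * t ^ j := by
    calc t ^ (358202 * j) = (t ^ (598 * j)) ^ 599 := by
          rw [← pow_mul]; congr 1; ring
      _ ≤ (j.factorial) ^ 599 := Nat.pow_le_pow_left hfac 599
      _ ≤ A.card * ((t ^ 360599 + 1) * (t ^ 720599 + 1)) := hcard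
      _ ≤ A.card * t ^ j := Nat.mul_le_mul_left _ hR
  have h2 : t ^ (358201 * j) ≤ A.card := by
    have e : t ^ (358202 * j) = t ^ (358201 * j) * t ^ j := by
      rw [← pow_add]; congr 1; ring
    rw [e] at h1
    exact Nat.le_of_mul_le_mul_right h1 (Nat.pow_pos (by omega))
  calc P ^ 180 ≤ (t ^ (360000 * j)) ^ 180 := Nat.pow_le_pow_left hP2 180
    _ = t ^ (64800000 * j) := by rw [← pow_mul]; congr 1; ring
    _ ≤ t ^ (64834381 * j) := Nat.pow_le_pow_right htpos (by omega)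
    _ = (t ^ (358201 * j)) ^ 181 := by rw [← pow_mul]; congr 1; ring
    _ ≤ A.card ^ 181 := Nat.pow_le_pow_left h2 181

end Pool.Agent.Hhelper87
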