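import Mathlib

/-!
Counting multisets of integers `≥ 2` with bounded product.
-/

namespace Pool.Agent.Hhelper87

open Finset

lemma geom_le_exp (t : ℝ) (h0 : 0 ≤ t) (h1 : t ≤ 1 / 2) (K : ℕ) :
    ∑ e ∈ Finset.range K, t ^ e ≤ Real.exp (2 * t) := by
  have hs : Summable (fun e : ℕ => t ^ e) := summable_geometric_of_lt_one h0 (by linarith)
  have h2 : ∑ e ∈ Finset.range K, t ^ e ≤ (1 - t)⁻¹ := by
    rw [← tsum_geometric_of_lt_one h0 (by linarith)]
    exact hs.sum_le_tsum _ (fun i _ => by positivity)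
  have h3 : (1 - t)⁻¹ ≤ Real.exp (2 * t) := by
    rw [inv_le_iff_one_le_mul₀ (by linarith)]
    have h4 := Real.add_one_le_exp (2 * t)
    have h5 : (0 : ℝ) < 1 - t := by linarith
    nlinarith [mul_le_mul_of_nonneg_right h4 h5.le]
  exact h2.trans h3

lemma sum_prod_rpow_le (σ : ℝ) (hσ : 1 < σ) :
    ∃ C : ℝ, 1 ≤ C ∧ ∀ s : Finset (Multiset ℕ), (∀ v ∈ s, ∀ a ∈ v, 2 ≤ a) →
      ∑ v ∈ s, ((v.prod : ℕ) : ℝ) ^ (-σ) ≤ C := by
  have hsum0 : Summable (fun n : ℕ => (n : ℝ) ^ (-σ)) := Real.summable_nat_rpow.mpr (by linarith)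
  have hsum : Summable (fun n : ℕ => (((n + 2 : ℕ)) : ℝ) ^ (-σ)) :=
    (summable_nat_add_iff (f := fun n : ℕ => (n : ℝ) ^ (-σ)) 2).mpr hsum0
  refine ⟨Real.exp (2 * ∑' n : ℕ, (((n + 2 : ℕ)) : ℝ) ^ (-σ)), ?_, ?_⟩
  · rw [← Real.exp_zero]
    apply Real.exp_le_exp.mpr
    have : 0 ≤ ∑' n : ℕ, (((n + 2 : ℕ)) : ℝ) ^ (-σ) := tsum_nonneg (fun n => by positivity)
    linarith
  intro s hs
  -- bounds
  obtain ⟨J, hJ⟩ : ∃ J : ℕ, ∀ v ∈ s, ∀ a ∈ v, a < J + 2 := by
    refine ⟨∑ v ∈ s, v.sum, fun v hv a ha => ?_⟩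
    have h1 : a ≤ v.sum := Multiset.single_le_sum (fun _ _ => Nat.zero_le _) a ha
    have h2 : v.sum ≤ ∑ v ∈ s, v.sum := Finset.single_le_sum (f := fun v : Multiset ℕ => v.sum)
      (fun _ _ => Nat.zero_le _) hv
    omega
  obtain ⟨K, hK⟩ : ∃ K : ℕ, ∀ v ∈ s, ∀ a, v.count a < K := by
    refine ⟨∑ v ∈ s, Multiset.card v + 1, fun v hv a => ?_⟩
    have h1 : v.count a ≤ Multiset.card v := Multiset.count_le_card a v
    have h2 : Multiset.card v ≤ ∑ v ∈ s, Multiset.card v :=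
      Finset.single_le_sum (f := fun v : Multiset ℕ => Multiset.card v)
        (fun _ _ => Nat.zero_le _) hv
    omega
  let t : Fin J → ℝ := fun i => (((i : ℕ) + 2 : ℕ) : ℝ) ^ (-σ)
  let F : Multiset ℕ → (Fin J → ℕ) := fun v i => v.count ((i : ℕ) + 2)
  have hF_inj : Set.InjOn F s := by
    intro v hv w hw hvw
    ext a
    by_cases ha : 2 ≤ a ∧ a < J + 2
    · have := congrFun hvw ⟨a - 2, by omega⟩
      simp only [F] at this
      have e : a - 2 + 2 = a := by omega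
      rwa [e] at this
    · rw [Multiset.count_eq_zero_of_notMem, Multiset.count_eq_zero_of_notMem]
      · intro h; exact ha ⟨hs w hw a h, hJ w hw a h⟩
      · intro h; exact ha ⟨hs v hv a h, hJ v hv a h⟩
  have hprod : ∀ v ∈ s, ((v.prod : ℕ) : ℝ) ^ (-σ) = ∏ i, t i ^ F v i := by
    intro v hv
    have h1 : v.prod = ∏ a ∈ Finset.Ico 2 (J + 2), a ^ v.count a := by
      apply Finset.prod_multiset_count_of_subset
      intro a ha
      rw [Multiset.mem_toFinset] at ha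
      rw [Finset.mem_Ico]
      exact ⟨hs v hv a ha, hJ v hv a ha⟩
    rw [h1, Finset.prod_Ico_eq_prod_range, Nat.add_sub_cancel, Finset.prod_range]
    push_cast
    rw [← Real.finsetProd_rpow _ _ (fun i _ => by positivity)]
    apply Finset.prod_congr rfl
    intro i _
    simp only [t, F]
    rw [← Real.rpow_natCast, ← Real.rpow_natCast, ← Real.rpow_mul (by positivity),
      ← Real.rpow_mul (by positivity), mul_comm]
    push_cast
    rw [add_comm (2 : ℝ), add_comm 2 (i : ℕ)]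
  calc ∑ v ∈ s, ((v.prod : ℕ) : ℝ) ^ (-σ) = ∑ v ∈ s, ∏ i, t i ^ F v i :=
        Finset.sum_congr rfl hprod
    _ = ∑ p ∈ s.image F, ∏ i, t i ^ p i := by
        rw [Finset.sum_image hF_inj]
    _ ≤ ∑ p ∈ Fintype.piFinset (fun _ : Fin J => Finset.range K), ∏ i, t i ^ p i := by
        apply Finset.sum_le_sum_of_subset_of_nonneg
        · intro p hp
          rw [Finset.mem_image] at hp
          obtain ⟨v, hv, rfl⟩ := hp
          rw [Fintype.mem_piFinset]
          intro i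
          rw [Finset.mem_range]
          exact hK v hv _
        · intro p _ _
          exact Finset.prod_nonneg (fun i _ => by positivity)
    _ = ∏ i, ∑ e ∈ Finset.range K, t i ^ e := by
        rw [Finset.prod_univ_sum]
    _ ≤ ∏ i, Real.exp (2 * t i) := by
        apply Finset.prod_le_prod
        · intro i _; exact Finset.sum_nonneg (fun e _ => by positivity)
        · intro i _
          apply geom_le_exp _ (by positivity)
          have h2 : (((i : ℕ) + 2 : ℕ) : ℝ) ^ (-σ) ≤ (((i : ℕ) + 2 : ℕ) : ℝ) ^ (-1 : ℝ) := by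
            apply Real.rpow_le_rpow_of_exponent_le
            · push_cast; have : (0 : ℝ) ≤ (i : ℕ) := Nat.cast_nonneg _; linarith
            · linarith
          refine h2.trans ?_
          rw [Real.rpow_neg_one]
          rw [one_div]
          apply inv_anti₀ (by norm_num)
          push_cast
          have : (0 : ℝ) ≤ (i : ℕ) := Nat.cast_nonneg _
          linarith
    _ = Real.exp (2 * ∑ i, t i) := by
        rw [← Real.exp_sum, Finset.mul_sum]
    _ ≤ _ := by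
        apply Real.exp_le_exp.mpr
        apply mul_le_mul_of_nonneg_left _ (by norm_num)
        have : ∑ i, t i = ∑ i ∈ Finset.range J, (((i + 2 : ℕ)) : ℝ) ^ (-σ) := by
          rw [Finset.sum_range]
        rw [this]
        exact hsum.sum_le_tsum _ (fun i _ => by positivity)

/-- For `ε > 0`, finite families of multisets of integers `≥ 2` with product at most `X` satisfy
`∑ 1 / prod ≤ C X ^ ε`. -/
lemma sum_inv_prod_le (ε : ℝ) (hε : 0 < ε) :
    ∃ C : ℝ, 1 ≤ C ∧ ∀ (X : ℝ) (s : Finset (Multiset ℕ)), 1 ≤ X → (∀ v ∈ s, ∀ a ∈ v, 2 ≤ a) →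
      (∀ v ∈ s, ((v.prod : ℕ) : ℝ) ≤ X) → ∑ v ∈ s, (((v.prod : ℕ) : ℝ))⁻¹ ≤ C * X ^ ε := by
  obtain ⟨C, hC1, hC⟩ := sum_prod_rpow_le (1 + ε) (by linarith)
  refine ⟨C, hC1, fun X s hX hs hle => ?_⟩
  calc ∑ v ∈ s, (((v.prod : ℕ) : ℝ))⁻¹ ≤ ∑ v ∈ s, X ^ ε * ((v.prod : ℕ) : ℝ) ^ (-(1 + ε)) := by
        apply Finset.sum_le_sum
        intro v hv
        have hpos : 0 < v.prod := by
          apply Nat.pos_of_ne_zero
          intro h0
          rw [Multiset.prod_eq_zero_iff] at h0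
          have := hs v hv 0 h0
          omega
        have hp : (0 : ℝ) < ((v.prod : ℕ) : ℝ) := by exact_mod_cast hpos
        rw [neg_add, Real.rpow_add hp, Real.rpow_neg_one, Real.rpow_neg hp.le]
        have h1 : ((v.prod : ℕ) : ℝ) ^ ε ≤ X ^ ε := Real.rpow_le_rpow hp.le (hle v hv) hε.le
        have h2 : 0 < ((v.prod : ℕ) : ℝ) ^ ε := Real.rpow_pos_of_pos hp _
        have h3 : 1 ≤ X ^ ε * (((v.prod : ℕ) : ℝ) ^ ε)⁻¹ := by
          rw [← div_eq_mul_inv, one_le_div h2]; exact h1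
        calc (((v.prod : ℕ) : ℝ))⁻¹ = (((v.prod : ℕ) : ℝ))⁻¹ * 1 := by ring
          _ ≤ (((v.prod : ℕ) : ℝ))⁻¹ * (X ^ ε * (((v.prod : ℕ) : ℝ) ^ ε)⁻¹) := by
              apply mul_le_mul_of_nonneg_left h3 (by positivity)
          _ = _ := by ring
    _ = X ^ ε * ∑ v ∈ s, ((v.prod : ℕ) : ℝ) ^ (-(1 + ε)) := by rw [Finset.mul_sum]
    _ ≤ X ^ ε * C := by
        apply mul_le_mul_of_nonneg_left (hC s hs) (by positivity)
    _ = C * X ^ ε := by ring

lemma card_le_of_prod_le (ε : ℝ) (hε : 0 < ε) :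
    ∃ C : ℝ, 1 ≤ C ∧ ∀ (X : ℝ) (s : Finset (Multiset ℕ)), 1 ≤ X → (∀ v ∈ s, ∀ a ∈ v, 2 ≤ a) →
      (∀ v ∈ s, ((v.prod : ℕ) : ℝ) ≤ X) → (s.card : ℝ) ≤ C * X ^ (1 + ε) := by
  obtain ⟨C, hC1, hC⟩ := sum_inv_prod_le ε hε
  refine ⟨C, hC1, fun X s hX hs hle => ?_⟩
  have h := hC X s hX hs hle
  have hX0 : 0 < X := by linarith
  calc (s.card : ℝ) = ∑ v ∈ s, (1 : ℝ) := by simp
    _ ≤ ∑ v ∈ s, X * (((v.prod : ℕ) : ℝ))⁻¹ := by
        apply Finset.sum_le_sum
        intro v hv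
        have hpos : 0 < v.prod := by
          apply Nat.pos_of_ne_zero
          intro h0
          rw [Multiset.prod_eq_zero_iff] at h0
          have := hs v hv 0 h0
          omega
        have hp : (0 : ℝ) < ((v.prod : ℕ) : ℝ) := by exact_mod_cast hpos
        rw [← div_eq_mul_inv, one_le_div hp]
        exact hle v hv
    _ = X * ∑ v ∈ s, (((v.prod : ℕ) : ℝ))⁻¹ := by rw [Finset.mul_sum]
    _ ≤ X * (C * X ^ ε) := mul_le_mul_of_nonneg_left h hX0.le
    _ = C * X ^ (1 + ε) := by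
        rw [Real.rpow_add hX0, Real.rpow_one]; ring

/-- finiteness -/
lemma finite_prod_le (X : ℕ) : {v : Multiset ℕ | (∀ a ∈ v, 2 ≤ a) ∧ v.prod ≤ X}.Finite := by
  apply Set.Finite.subset (Set.finite_Iic (X • (Multiset.range (X + 1))))
  rintro v ⟨h1, h2⟩
  rw [Set.mem_Iic, Multiset.le_iff_count]
  intro a
  have hpos : 0 < v.prod := by
    apply Nat.pos_of_ne_zero
    intro h0
    rw [Multiset.prod_eq_zero_iff] at h0
    have := h1 0 h0
    omega
  by_cases ha : a ∈ v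
  · have ha2 : a ≤ X := (Nat.le_of_dvd hpos (Multiset.dvd_prod ha)).trans h2
    rw [Multiset.count_nsmul, Multiset.count_eq_one_of_mem (Multiset.nodup_range _)
      (Multiset.mem_range.mpr (by omega)), mul_one]
    have h3 : 2 ^ Multiset.card v ≤ v.prod := by
      apply Multiset.pow_card_le_prod h1
    have h4 : Multiset.card v < 2 ^ Multiset.card v := Nat.lt_two_pow_self
    have h5 := Multiset.count_le_card a v
    omega
  · rw [Multiset.count_eq_zero_of_notMem ha]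
    exact Nat.zero_le _

end Pool.Agent.Hhelper87
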