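import Mathlib

/-!
Counting roots `h < H` of `h ^ 2 - h - g ≡ 0 (mod A)`.
-/

namespace Pool.Agent.Hhelper87

open Finset

lemma card_le_of_congr (H L : ℕ) (hL : 0 < L) (T : Finset ℕ) (hT : ∀ h ∈ T, h < H)
    (hcong : ∀ h ∈ T, ∀ h' ∈ T, (L : ℤ) ∣ (h : ℤ) - h') : T.card ≤ H / L + 1 := by
  have : T.card ≤ (Finset.range (H / L + 1)).card := by
    apply Finset.card_le_card_of_injOn (fun h => h / L)
    · intro h hh
      simp only [Finset.coe_range, Set.mem_Iio]
      have := hT h hh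
      exact Nat.lt_succ_of_le (Nat.div_le_div_right this.le)
    · intro h hh h' hh' heq
      simp only at heq
      have h1 := hcong h hh h' hh'
      have h2 := Nat.div_add_mod h L
      have h3 := Nat.div_add_mod h' L
      have h4 := Nat.mod_lt h hL
      have h5 := Nat.mod_lt h' hL
      rw [heq] at h2
      have h6 : (h : ℤ) - h' = (h % L : ℕ) - (h' % L : ℕ) := by
        have e1 : (h : ℤ) = ((L * (h' / L) : ℕ) : ℤ) + (h % L : ℕ) := by
          exact_mod_cast h2.symm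
        have e2 : (h' : ℤ) = ((L * (h' / L) : ℕ) : ℤ) + (h' % L : ℕ) := by
          exact_mod_cast h3.symm
        linarith
      rw [h6] at h1
      have h7 : ((h % L : ℕ) : ℤ) - (h' % L : ℕ) = 0 := by
        apply Int.eq_zero_of_abs_lt_dvd h1
        rw [abs_lt]
        constructor <;> omega
      omega
  simpa using this

/-- number of `h < H` with `A ∣ h ^ 2 - h - g`. -/
def rootSet (A g H : ℕ) : Finset ℕ :=
  (Finset.range H).filter (fun h => (A : ℤ) ∣ (h : ℤ) ^ 2 - h - g)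

lemma card_rootSet_le (A g H : ℕ) (hA : 0 < A) :
    (rootSet A g H).card * A ≤ A.divisors.card * ((4 * g + 1) * H + A) := by
  classical
  rcases (rootSet A g H).eq_empty_or_nonempty with hemp | ⟨h0, hh0⟩
  · rw [hemp]; simp
  have hh0' := hh0
  unfold rootSet at hh0'
  rw [Finset.mem_filter] at hh0'
  obtain ⟨h0H, h0div⟩ := hh0'
  let φ : ℕ → ℕ := fun h => Int.gcd (A : ℤ) ((h : ℤ) - h0)
  have hφ : ∀ h ∈ rootSet A g H, φ h ∈ A.divisors := by
    intro h _
    rw [Nat.mem_divisors]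
    refine ⟨?_, hA.ne'⟩
    have : ((φ h : ℕ) : ℤ) ∣ (A : ℤ) := Int.gcd_dvd_left _ _
    exact_mod_cast this
  rw [Finset.card_eq_sum_card_fiberwise hφ, Finset.sum_mul, Finset.card_eq_sum_ones,
    Finset.sum_mul]
  apply Finset.sum_le_sum
  intro d hd
  rw [one_mul]
  set T := (rootSet A g H).filter (fun h => φ h = d) with hTdef
  rcases T.eq_empty_or_nonempty with hemp | ⟨h1, hh1⟩
  · rw [hemp]; simp
  have hdA : d ∣ A := Nat.dvd_of_mem_divisors hd
  obtain ⟨e, he⟩ := hdA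
  have hd0 : 0 < d := Nat.pos_of_ne_zero (by rintro rfl; simp at he; omega)
  have he0 : 0 < e := Nat.pos_of_ne_zero (by rintro rfl; simp at he; omega)
  have key : ∀ h ∈ T, (d : ℤ) ∣ (h : ℤ) - h0 ∧ (e : ℤ) ∣ (h : ℤ) + h0 - 1 := by
    intro h hh
    rw [hTdef, Finset.mem_filter] at hh
    obtain ⟨hh1, hh2⟩ := hh
    unfold rootSet at hh1
    rw [Finset.mem_filter] at hh1
    have hd1 : (d : ℤ) ∣ (h : ℤ) - h0 := by
      rw [← hh2]; exact Int.gcd_dvd_right _ _
    refine ⟨hd1, ?_⟩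
    have h3 : (A : ℤ) ∣ ((h : ℤ) - h0) * ((h : ℤ) + h0 - 1) := by
      have : ((h : ℤ) - h0) * ((h : ℤ) + h0 - 1) =
        ((h : ℤ) ^ 2 - h - g) - ((h0 : ℤ) ^ 2 - h0 - g) := by ring
      rw [this]
      exact dvd_sub hh1.2 h0div
    obtain ⟨k, hk⟩ := hd1
    -- A = d * e, h - h0 = d * k, gcd (A, h - h0) = d, thus gcd (e, k) = 1
    have hA' : (A : ℤ) = d * e := by rw [he]; push_cast; ring
    have hdne : (d : ℤ) ≠ 0 := by exact_mod_cast hd0.ne'
    have hcop : Int.gcd (e : ℤ) k = 1 := by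
      have h5 : Int.gcd (A : ℤ) ((h : ℤ) - h0) = d := hh2
      rw [hA', hk, Int.gcd_mul_left] at h5
      simp only [Int.natAbs_natCast] at h5
      have : d * Int.gcd (e : ℤ) k = d * 1 := by rw [h5, mul_one]
      exact Nat.eq_of_mul_eq_mul_left hd0 this
    rw [hA', hk, mul_assoc] at h3
    have h6 : (e : ℤ) ∣ k * ((h : ℤ) + h0 - 1) := (mul_dvd_mul_iff_left hdne).mp h3
    exact (Int.isCoprime_iff_gcd_eq_one.mpr hcop).dvd_of_dvd_mul_left h6
  set G := Nat.gcd d e with hG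
  set L := Nat.lcm d e with hLdef
  have hGL : G * L = A := by rw [hG, hLdef, Nat.gcd_mul_lcm, he]
  have hL0 : 0 < L := Nat.lcm_pos hd0 he0
  have hG0 : 0 < G := Nat.gcd_pos_of_pos_left _ hd0
  have hGd : (G : ℤ) ∣ d := by exact_mod_cast Nat.gcd_dvd_left d e
  have hGe : (G : ℤ) ∣ e := by exact_mod_cast Nat.gcd_dvd_right d e
  have hGle : G ≤ 4 * g + 1 := by
    have k1 := key h1 hh1
    have h7 : (G : ℤ) ∣ 2 * h0 - 1 := by
      have a1 := hGd.trans k1.1
      have a2 := hGe.trans k1.2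
      have : (2 * (h0 : ℤ) - 1) = ((h1 : ℤ) + h0 - 1) - ((h1 : ℤ) - h0) := by ring
      rw [this]
      exact dvd_sub a2 a1
    have h8 : (G : ℤ) ^ 2 ∣ (h0 : ℤ) ^ 2 - h0 - g := by
      have : (G : ℤ) ^ 2 ∣ (A : ℤ) := by
        rw [he, sq]; push_cast
        exact mul_dvd_mul hGd hGe
      exact this.trans h0div
    have h9 : (G : ℤ) ^ 2 ∣ (4 * g + 1 : ℤ) := by
      have e1 : (4 * g + 1 : ℤ) = (2 * (h0 : ℤ) - 1) ^ 2 - 4 * ((h0 : ℤ) ^ 2 - h0 - g) := by ring
      rw [e1]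
      apply dvd_sub
      · exact pow_dvd_pow_of_dvd h7 2
      · exact Dvd.dvd.mul_left h8 4
    have h10 : G ^ 2 ∣ 4 * g + 1 := by exact_mod_cast h9
    have h11 : G ^ 2 ≤ 4 * g + 1 := Nat.le_of_dvd (by omega) h10
    nlinarith
  have hcard : T.card ≤ H / L + 1 := by
    apply card_le_of_congr H L hL0
    · intro h hh
      rw [hTdef, Finset.mem_filter] at hh
      unfold rootSet at hh
      rw [Finset.mem_filter] at hh
      exact Finset.mem_range.mp hh.1.1
    · intro h hh h' hh'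
      have a1 := key h hh
      have a2 := key h' hh'
      have b1 : (d : ℤ) ∣ (h : ℤ) - h' := by
        have : (h : ℤ) - h' = ((h : ℤ) - h0) - ((h' : ℤ) - h0) := by ring
        rw [this]; exact dvd_sub a1.1 a2.1
      have b2 : (e : ℤ) ∣ (h : ℤ) - h' := by
        have : (h : ℤ) - h' = ((h : ℤ) + h0 - 1) - ((h' : ℤ) + h0 - 1) := by ring
        rw [this]; exact dvd_sub a1.2 a2.2
      have b3 : L ∣ ((h : ℤ) - h').natAbs := by
        apply Nat.lcm_dvd
        · exact Int.natCast_dvd.mp b1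
        · exact Int.natCast_dvd.mp b2
      exact Int.natCast_dvd.mpr b3
  have h12 : (H / L) * A ≤ (4 * g + 1) * H := by
    calc (H / L) * A = (H / L * L) * G := by rw [← hGL]; ring
      _ ≤ H * G := Nat.mul_le_mul_right _ (Nat.div_mul_le_self H L)
      _ ≤ H * (4 * g + 1) := Nat.mul_le_mul_left _ hGle
      _ = _ := by ring
  calc T.card * A ≤ (H / L + 1) * A := Nat.mul_le_mul_right _ hcard
    _ = (H / L) * A + A := by ring
    _ ≤ (4 * g + 1) * H + A := by omega

end Pool.Agent.Hhelper87
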