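import Mathlib
import Pool.Agent.Hhelper87.SigmaTwo.Struct
import Pool.Agent.Hhelper87.SigmaTwo.MultCount
import Pool.Agent.Hhelper87.SigmaTwo.DivBound

/-!
Counting the solutions with a large entry.
-/

namespace Pool.Agent.Hhelper87

open Finset

/-- the finite set of multisets of integers `≥ 2` with product at most `X` -/
noncomputable def MM (X : ℕ) : Finset (Multiset ℕ) := (finite_prod_le X).toFinset

lemma mem_MM {X : ℕ} {v : Multiset ℕ} : v ∈ MM X ↔ (∀ a ∈ v, 2 ≤ a) ∧ v.prod ≤ X := by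
  unfold MM
  rw [Set.Finite.mem_toFinset]
  rfl

/-- data attached to a solution. -/
lemma IsSol.data {n : ℕ} (hn : 3 ≤ n) {w : Multiset ℕ} (hw : IsSol n w) :
    ∃ z v, w = z ::ₘ v ∧ (∀ a ∈ v, a ≤ z) ∧ (∀ a ∈ v, 2 ≤ a) ∧ 2 ≤ z ∧ 2 * v.prod ≤ 5 * n ^ 3 ∧
      n - 1 + rr v ≤ n * (1 + 5 * Multiset.card v) ∧ n - 1 + rr v < v.prod ∧
      (n - 1 + rr v) ^ 2 + 2 * z * (n - 1 + rr v) =
        (n - 1 + rr v) + 2 * z * v.prod + gg v := by
  obtain ⟨y, z, w', rfl, hyz, hw'⟩ := hw.exists_two hn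
  obtain ⟨b1, b2, b3⟩ := hw.bounds hn hyz hw'
  have hw'0 : w' ≠ 0 := by
    rintro rfl
    simp at b1
  obtain ⟨c1, c2⟩ := hw.u_lt hn hw'0
  have heq := hw.eq_one (by omega : 1 ≤ n)
  obtain ⟨h1, h2, h3⟩ := hw
  refine ⟨z, y ::ₘ w', rfl, ?_, fun a ha => h1 a (by
    rw [Multiset.mem_cons]; exact Or.inr ha), h1 z (by simp), ?_, ?_, c1, heq⟩
  · intro a ha
    rw [Multiset.mem_cons] at ha
    rcases ha with rfl | ha
    · exact hyz
    · exact (hw' a ha).trans hyz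
  · rw [Multiset.prod_cons]
    calc 2 * (y * w'.prod) = y * (2 * w'.prod) := by ring
      _ ≤ (5 * n) * n ^ 2 := Nat.mul_le_mul b3 b2
      _ = 5 * n ^ 3 := by ring
  · have hr : rr (y ::ₘ w') ≤ Multiset.card (y ::ₘ w') * (y - 1) := by
      apply rr_le_card_mul
      intro a ha
      rw [Multiset.mem_cons] at ha
      rcases ha with rfl | ha
      · exact le_refl _
      · exact hw' a ha
    have hr2 : rr (y ::ₘ w') ≤ Multiset.card (y ::ₘ w') * (5 * n) :=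
      hr.trans (Nat.mul_le_mul_left _ (by omega))
    calc n - 1 + rr (y ::ₘ w') ≤ n + Multiset.card (y ::ₘ w') * (5 * n) := by omega
      _ = _ := by ring

/-- the pair attached to a solution -/
noncomputable def phi (p : ℕ × Multiset ℕ) : Multiset ℕ × ℕ :=
  (p.2.erase p.2.sup, (p.2.erase p.2.sup).prod - (p.1 - 1 + rr (p.2.erase p.2.sup)))

lemma sup_cons_eq (z : ℕ) (v : Multiset ℕ) (h : ∀ a ∈ v, a ≤ z) : (z ::ₘ v).sup = z := by
  rw [Multiset.sup_cons]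
  exact sup_eq_left.mpr (Multiset.sup_le.mpr h)

lemma phi_cons (n z : ℕ) (v : Multiset ℕ) (h : ∀ a ∈ v, a ≤ z) :
    phi (n, z ::ₘ v) = (v, v.prod - (n - 1 + rr v)) := by
  unfold phi
  simp only
  rw [sup_cons_eq z v h, Multiset.erase_cons_head]

lemma phi_injOn : Set.InjOn phi {p : ℕ × Multiset ℕ | 3 ≤ p.1 ∧ IsSol p.1 p.2} := by
  rintro ⟨n, w⟩ ⟨hn, hw⟩ ⟨n', w'⟩ ⟨hn', hw'⟩ heq
  simp only at hn hw hn' hw'
  obtain ⟨z, v, rfl, hv, hv2, hz, -, -, hlt, he⟩ := hw.data hn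
  obtain ⟨z', v', rfl, hv', hv2', hz', -, -, hlt', he'⟩ := hw'.data hn'
  rw [phi_cons n z v hv, phi_cons n' z' v' hv', Prod.mk.injEq] at heq
  obtain ⟨rfl, h2⟩ := heq
  have hu : n - 1 + rr v = n' - 1 + rr v := by omega
  have hnn : n = n' := by omega
  subst hnn
  set u := n - 1 + rr v
  have hzz : z = z' := by
    obtain ⟨d, hd⟩ := Nat.exists_eq_add_of_lt hlt
    rw [hd] at he he'
    have h3 : 2 * z * (d + 1) = 2 * z' * (d + 1) := by nlinarith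
    have h4 := Nat.eq_of_mul_eq_mul_right (by omega : 0 < d + 1) h3
    omega
  rw [hzz]

lemma phi_dvd {n : ℕ} (hn : 3 ≤ n) {w : Multiset ℕ} (hw : IsSol n w) :
    (phi (n, w)).2 ∈ ((phi (n, w)).1.prod ^ 2 - (phi (n, w)).1.prod - gg (phi (n, w)).1).divisors
      ∧ (phi (n, w)).1.prod ^ 2 - (phi (n, w)).1.prod - gg (phi (n, w)).1 ≠ 0 := by
  obtain ⟨z, v, rfl, hv, hv2, hz, -, -, hlt, he⟩ := hw.data hn
  rw [phi_cons n z v hv]
  simp only
  set u := n - 1 + rr v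
  obtain ⟨d, hd⟩ := Nat.exists_eq_add_of_lt hlt
  have e1 : v.prod - u = d + 1 := by omega
  have e2 : v.prod ^ 2 - v.prod - gg v = (d + 1) * (d + 1 + 2 * u + 2 * z - 1) := by
    rw [hd] at he ⊢
    obtain ⟨b, rfl⟩ : ∃ b, z = b + 1 := ⟨z - 1, by omega⟩
    have e3 : d + 1 + 2 * u + 2 * (b + 1) - 1 = d + 2 * u + 2 * (b + 1) := by omega
    rw [e3]
    have e4 : (u + d + 1) ^ 2 = (u + d + 1) + gg v + (d + 1) * (d + 2 * u + 2 * (b + 1)) := by
      nlinarith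
    omega
  rw [e1, e2, Nat.mem_divisors]
  have hne : (d + 1) * (d + 1 + 2 * u + 2 * z - 1) ≠ 0 := by
    apply Nat.mul_ne_zero (by omega)
    omega
  exact ⟨⟨Dvd.intro _ rfl, hne⟩, hne⟩

lemma typeOne_count (N X : ℕ) (hN : 3 ≤ N) (A : ℕ → Finset (Multiset ℕ))
    (hA : ∀ n ∈ Finset.Ico N (2 * N), ∀ w ∈ A n, IsSol n w)
    (hX : ∀ n ∈ Finset.Ico N (2 * N), ∀ w ∈ A n, ∀ z v, w = z ::ₘ v → (∀ a ∈ v, a ≤ z) →
      v.prod ≤ X) (C D ε : ℝ) (hε : 0 < ε) (hC : 1 ≤ C) (_hD : 1 ≤ D)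
    (hdiv : ∀ n : ℕ, n ≠ 0 → (n.divisors.card : ℝ) ≤ C * (n : ℝ) ^ ε)
    (hcount : ∀ (X : ℝ) (s : Finset (Multiset ℕ)), 1 ≤ X → (∀ v ∈ s, ∀ a ∈ v, 2 ≤ a) →
      (∀ v ∈ s, ((v.prod : ℕ) : ℝ) ≤ X) → (s.card : ℝ) ≤ D * X ^ (1 + ε)) (hX1 : 1 ≤ X) :
    ((∑ n ∈ Finset.Ico N (2 * N), (A n).card : ℕ) : ℝ) ≤ C * D * (X : ℝ) ^ (1 + 3 * ε) := by
  classical
  have hX1' : (1 : ℝ) ≤ X := by exact_mod_cast hX1
  -- the set of pairs
  let E : Multiset ℕ → ℕ := fun v => v.prod ^ 2 - v.prod - gg v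
  let T : Finset (Multiset ℕ × ℕ) :=
    ((MM X).filter (fun v => E v ≠ 0)).biUnion (fun v => ({v} : Finset (Multiset ℕ)) ×ˢ (E v).divisors)
  have hT : (T.card : ℝ) ≤ C * D * (X : ℝ) ^ (1 + 3 * ε) := by
    have h1 : T.card ≤ ∑ v ∈ (MM X).filter (fun v => E v ≠ 0), (E v).divisors.card := by
      refine Finset.card_biUnion_le.trans ?_
      apply Finset.sum_le_sum
      intro v _
      rw [Finset.card_product, Finset.card_singleton, one_mul]
    have h2 : (∑ v ∈ (MM X).filter (fun v => E v ≠ 0), ((E v).divisors.card : ℝ)) ≤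
        ∑ v ∈ (MM X).filter (fun v => E v ≠ 0), C * (X : ℝ) ^ (2 * ε) := by
      apply Finset.sum_le_sum
      intro v hv
      rw [Finset.mem_filter] at hv
      refine (hdiv _ hv.2).trans ?_
      apply mul_le_mul_of_nonneg_left _ (by linarith)
      have h3 : (E v : ℝ) ≤ (X : ℝ) ^ (2 : ℝ) := by
        have : E v ≤ X ^ 2 := by
          have h4 := (mem_MM.mp hv.1).2
          calc E v ≤ v.prod ^ 2 := by simp only [E]; omega
            _ ≤ X ^ 2 := Nat.pow_le_pow_left h4 2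
        rw [Real.rpow_two]
        exact_mod_cast this
      calc (E v : ℝ) ^ ε ≤ ((X : ℝ) ^ (2 : ℝ)) ^ ε :=
            Real.rpow_le_rpow (Nat.cast_nonneg _) h3 hε.le
        _ = (X : ℝ) ^ (2 * ε) := by rw [← Real.rpow_mul (by linarith)]
    have h5 : (((MM X).filter (fun v => E v ≠ 0)).card : ℝ) ≤ D * (X : ℝ) ^ (1 + ε) := by
      apply hcount (X : ℝ) _ hX1'
      · intro v hv
        exact (mem_MM.mp (Finset.mem_filter.mp hv).1).1
      · intro v hv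
        exact_mod_cast (mem_MM.mp (Finset.mem_filter.mp hv).1).2
    calc (T.card : ℝ) ≤ ∑ v ∈ (MM X).filter (fun v => E v ≠ 0), ((E v).divisors.card : ℝ) := by
          exact_mod_cast h1
      _ ≤ ∑ v ∈ (MM X).filter (fun v => E v ≠ 0), C * (X : ℝ) ^ (2 * ε) := h2
      _ = (((MM X).filter (fun v => E v ≠ 0)).card : ℝ) * (C * (X : ℝ) ^ (2 * ε)) := by
          rw [Finset.sum_const, nsmul_eq_mul]
      _ ≤ (D * (X : ℝ) ^ (1 + ε)) * (C * (X : ℝ) ^ (2 * ε)) := by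
          apply mul_le_mul_of_nonneg_right h5
          positivity
      _ = C * D * ((X : ℝ) ^ (1 + ε) * (X : ℝ) ^ (2 * ε)) := by ring
      _ = C * D * (X : ℝ) ^ (1 + 3 * ε) := by
          rw [← Real.rpow_add (by linarith)]
          ring_nf
  have hle : (∑ n ∈ Finset.Ico N (2 * N), (A n).card) ≤ T.card := by
    rw [← Finset.card_sigma]
    apply Finset.card_le_card_of_injOn (fun p => phi (p.1, p.2))
    · rintro ⟨n, w⟩ hp
      simp only [Finset.coe_sigma, Set.mem_sigma_iff, Finset.mem_coe] at hp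
      obtain ⟨hn, hw⟩ := hp
      have hsol := hA n hn w hw
      have hn3 : 3 ≤ n := hN.trans (Finset.mem_Ico.mp hn).1
      have hd := phi_dvd hn3 hsol
      simp only [T, Finset.coe_biUnion, Set.mem_iUnion, Finset.mem_coe, Finset.mem_product,
        Finset.mem_singleton, Finset.mem_filter]
      refine ⟨(phi (n, w)).1, ⟨?_, hd.2⟩, rfl, hd.1⟩
      obtain ⟨z, v, rfl, hv, hv2, hz, -, -, hlt, he⟩ := hsol.data hn3
      rw [phi_cons n z v hv]
      rw [mem_MM]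
      exact ⟨hv2, hX n hn _ hw z v rfl hv⟩
    · rintro ⟨n, w⟩ hp ⟨n', w'⟩ hp' heq
      simp only [Finset.coe_sigma, Set.mem_sigma_iff, Finset.mem_coe] at hp hp'
      have := phi_injOn (x₁ := (n, w)) (x₂ := (n', w'))
        ⟨hN.trans (Finset.mem_Ico.mp hp.1).1, hA n hp.1 w hp.2⟩
        ⟨hN.trans (Finset.mem_Ico.mp hp'.1).1, hA n' hp'.1 w' hp'.2⟩ heq
      rw [Prod.mk.injEq] at this
      obtain ⟨rfl, rfl⟩ := this
      rfl
  calc ((∑ n ∈ Finset.Ico N (2 * N), (A n).card : ℕ) : ℝ) ≤ T.card := by exact_mod_cast hle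
    _ ≤ _ := hT

end Pool.Agent.Hhelper87
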