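import Mathlib
import Pool.Agent.Hhelper87.SigmaTwo.TypeOne
import Pool.Agent.Hhelper87.SigmaTwo.Roots

/-!
Counting the solutions all of whose entries are small.
-/

namespace Pool.Agent.Hhelper87

open Finset

lemma split_one (Z N : ℕ) (hN : 1 ≤ N) (w : Multiset ℕ) (hw : ∀ a ∈ w, 2 ≤ a ∧ a ≤ Z) :
    ∃ a r, w = a + r ∧ a.prod ≤ N ∧ (r = 0 ∨ N < a.prod * Z) := by
  induction w using Multiset.induction with
  | empty => exact ⟨0, 0, by simp, by simpa using hN, Or.inl rfl⟩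
  | cons b s ih =>
    obtain ⟨a, r, rfl, h1, h2⟩ := ih (fun c hc => hw c (by simp only [Multiset.mem_cons]; exact Or.inr hc))
    rcases h2 with rfl | h2
    · by_cases hb : (b ::ₘ a).prod ≤ N
      · exact ⟨b ::ₘ a, 0, by simp, hb, Or.inl rfl⟩
      · refine ⟨a, {b}, ?_, h1, Or.inr ?_⟩
        · rw [add_zero, add_comm, Multiset.singleton_add]
        · rw [Multiset.prod_cons] at hb
          push Not at hb
          have := (hw b (by simp)).2
          calc N < b * a.prod := hb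
            _ ≤ Z * a.prod := Nat.mul_le_mul_right _ this
            _ = _ := Nat.mul_comm _ _
    · exact ⟨a, b ::ₘ r, by rw [Multiset.add_cons], h1, Or.inr h2⟩

lemma split_three (Z N : ℕ) (hN : 1 ≤ N) (hZN : 5 * Z ^ 2 ≤ N) (w : Multiset ℕ)
    (hw : ∀ a ∈ w, 2 ≤ a ∧ a ≤ Z) (hprod : w.prod ≤ 5 * N ^ 2) :
    ∃ a b c, w = a + b + c ∧ a.prod ≤ N ∧ b.prod ≤ N ∧ c.prod ≤ N := by
  obtain ⟨a, r, rfl, h1, h2⟩ := split_one Z N hN w hw
  rcases h2 with rfl | h2
  · exact ⟨a, 0, 0, by simp, h1, by simpa using hN, by simpa using hN⟩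
  obtain ⟨b, c, rfl, h3, h4⟩ := split_one Z N hN r (fun c hc => hw c (by
    rw [Multiset.mem_add]; exact Or.inr hc))
  rcases h4 with rfl | h4
  · exact ⟨a, b, 0, by simp, h1, h3, by simpa using hN⟩
  refine ⟨a, b, c, by rw [add_assoc], h1, h3, ?_⟩
  rw [Multiset.prod_add, Multiset.prod_add] at hprod
  have h5 : N * (b.prod * c.prod) ≤ N * (5 * N * Z) := by
    calc N * (b.prod * c.prod) ≤ (a.prod * Z) * (b.prod * c.prod) := Nat.mul_le_mul_right _ h2.le
      _ = (a.prod * (b.prod * c.prod)) * Z := by ring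
      _ ≤ (5 * N ^ 2) * Z := Nat.mul_le_mul_right _ hprod
      _ = _ := by ring
  have h6 : b.prod * c.prod ≤ 5 * N * Z := Nat.le_of_mul_le_mul_left h5 hN
  have h7 : N * c.prod ≤ N * (5 * Z ^ 2) := by
    calc N * c.prod ≤ (b.prod * Z) * c.prod := Nat.mul_le_mul_right _ h4.le
      _ = (b.prod * c.prod) * Z := by ring
      _ ≤ (5 * N * Z) * Z := Nat.mul_le_mul_right _ h6
      _ = _ := by ring
  exact (Nat.le_of_mul_le_mul_left h7 hN).trans hZN

/-- triples `(h, g, a)` with `prod a ∣ h ^ 2 - h - g`. -/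
noncomputable def DD (N L G n : ℕ) : Finset (ℕ × ℕ × Multiset ℕ) :=
  ((Finset.Icc n (n + L)) ×ˢ (Finset.range (G + 1)) ×ˢ (MM N)).filter
    (fun p => ((p.2.2.prod : ℕ) : ℤ) ∣ (p.1 : ℤ) ^ 2 - p.1 - p.2.1)

lemma typeTwo_card_le (Z N L G n : ℕ) (hN : 1 ≤ N) (hZN : 5 * Z ^ 2 ≤ N)
    (A : Finset (Multiset ℕ)) (hA : ∀ w ∈ A, IsSol n w) (hZ : ∀ w ∈ A, ∀ a ∈ w, a ≤ Z)
    (hL : ∀ w ∈ A, rr w ≤ L) (hG : ∀ w ∈ A, gg w ≤ G) (hP : ∀ w ∈ A, w.prod ≤ 5 * N ^ 2) :
    A.card ≤ (DD N L G n).card ^ 3 := by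
  classical
  have hch : ∀ w ∈ A, ∃ t : Multiset ℕ × Multiset ℕ × Multiset ℕ,
      w = t.1 + t.2.1 + t.2.2 ∧ t.1.prod ≤ N ∧ t.2.1.prod ≤ N ∧ t.2.2.prod ≤ N := by
    intro w hw
    obtain ⟨a, b, c, h1, h2, h3, h4⟩ := split_three Z N hN hZN w
      (fun a ha => ⟨(hA w hw).1 a ha, hZ w hw a ha⟩) (hP w hw)
    exact ⟨(a, b, c), h1, h2, h3, h4⟩
  choose! t ht using hch
  let D := DD N L G n
  have hcard : (D ×ˢ D ×ˢ D).card = D.card ^ 3 := by
    rw [Finset.card_product, Finset.card_product]; ring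
  rw [← hcard]
  apply Finset.card_le_card_of_injOn (fun w => ((n + rr w, gg w, (t w).1),
    (n + rr w, gg w, (t w).2.1), (n + rr w, gg w, (t w).2.2)))
  · intro w hw
    have hw' : w ∈ A := hw
    obtain ⟨h1, h2, h3, h4⟩ := ht w hw'
    obtain ⟨s1, s2, s3⟩ := hA w hw'
    have hdvd : ∀ a : Multiset ℕ, a ≤ w → ((a.prod : ℕ) : ℤ) ∣ ((n + rr w : ℕ) : ℤ) ^ 2 -
        ((n + rr w : ℕ) : ℤ) - ((gg w : ℕ) : ℤ) := by
      intro a ha
      have e : ((n + rr w : ℕ) : ℤ) ^ 2 - ((n + rr w : ℕ) : ℤ) - ((gg w : ℕ) : ℤ) =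
          2 * ((w.prod : ℕ) : ℤ) := by
        have : (((n + rr w) ^ 2 : ℕ) : ℤ) = ((n + rr w + 2 * w.prod + gg w : ℕ) : ℤ) := by
          rw [s3]
        push_cast at this ⊢
        linarith
      rw [e]
      apply Dvd.dvd.mul_left
      exact_mod_cast Multiset.prod_dvd_prod_of_le ha
    have hmem : ∀ a : Multiset ℕ, a ≤ w → a.prod ≤ N → (n + rr w, gg w, a) ∈ D := by
      intro a ha haN
      simp only [D, DD, Finset.mem_filter, Finset.mem_product, Finset.mem_Icc, Finset.mem_range]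
      refine ⟨⟨⟨by omega, ?_⟩, ?_, ?_⟩, ?_⟩
      · have := hL w hw'; omega
      · have := hG w hw'; omega
      · rw [mem_MM]
        exact ⟨fun b hb => s1 b (Multiset.mem_of_le ha hb), haN⟩
      · exact hdvd a ha
    simp only [Finset.coe_product, Set.mem_prod, Finset.mem_coe]
    refine ⟨hmem _ ?_ h2, hmem _ ?_ h3, hmem _ ?_ h4⟩
    · conv_rhs => rw [h1]
      rw [add_assoc]; exact Multiset.le_add_right _ _
    · conv_rhs => rw [h1]
      rw [add_comm (t w).1, add_assoc]; exact Multiset.le_add_right _ _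
    · conv_rhs => rw [h1]
      exact Multiset.le_add_left _ _
  · intro w hw w' hw' heq
    simp only [Prod.mk.injEq] at heq
    obtain ⟨⟨_, _, e1⟩, ⟨_, _, e2⟩, ⟨_, _, e3⟩⟩ := heq
    rw [(ht w hw).1, (ht w' hw').1, e1, e2, e3]

lemma sum_DD_le (N L G H : ℕ) (hH : 2 * N + L ≤ H) :
    ∑ n ∈ Finset.Ico N (2 * N), (DD N L G n).card ≤
      (L + 1) * ∑ g ∈ Finset.range (G + 1), ∑ a ∈ MM N, (rootSet a.prod g H).card := by
  classical
  -- map (n, (h, g, a)) to (h - n, (g, (a, h)))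
  rw [← Finset.card_sigma]
  have : (L + 1) * ∑ g ∈ Finset.range (G + 1), ∑ a ∈ MM N, (rootSet a.prod g H).card =
    ((Finset.range (L + 1)) ×ˢ ((Finset.range (G + 1)).sigma
      (fun g => (MM N).sigma (fun a => rootSet a.prod g H)))).card := by
    rw [Finset.card_product, Finset.card_range, Finset.card_sigma]
    simp_rw [Finset.card_sigma]
  rw [this]
  apply Finset.card_le_card_of_injOn
    (fun p => (p.2.1 - p.1, ⟨p.2.2.1, ⟨p.2.2.2, p.2.1⟩⟩))
  · rintro ⟨n, h, g, a⟩ hp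
    simp only [Finset.coe_sigma, Set.mem_sigma_iff, Finset.mem_coe, DD, Finset.mem_filter,
      Finset.mem_product, Finset.mem_Icc, Finset.mem_Ico, Finset.mem_range] at hp
    obtain ⟨⟨hn1, hn2⟩, ⟨⟨h1, h2⟩, h3, h4⟩, h5⟩ := hp
    simp only [Finset.coe_product, Set.mem_prod, Finset.coe_sigma, Set.mem_sigma_iff,
      Finset.mem_coe, Finset.mem_range, rootSet, Finset.mem_filter]
    exact ⟨by omega, h3, h4, by omega, h5⟩
  · rintro ⟨n, h, g, a⟩ hp ⟨n', h', g', a'⟩ hp' heq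
    simp only [Finset.coe_sigma, Set.mem_sigma_iff, Finset.mem_coe, DD, Finset.mem_filter,
      Finset.mem_product, Finset.mem_Icc, Finset.mem_Ico, Finset.mem_range] at hp hp'
    simp only [Prod.mk.injEq, Sigma.mk.injEq, heq_eq_eq] at heq
    obtain ⟨e1, e2, e3, e4⟩ := heq
    subst e2 e3 e4
    have : n = n' := by omega
    subst this
    rfl

lemma sum_rootSet_le (N G H : ℕ) (hN : 1 ≤ N) (hNH : N ≤ H) (C D ε : ℝ) (hε : 0 < ε)
    (hC : 1 ≤ C)
    (hdiv : ∀ n : ℕ, n ≠ 0 → (n.divisors.card : ℝ) ≤ C * (n : ℝ) ^ ε)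
    (hsum : ∀ (X : ℝ) (s : Finset (Multiset ℕ)), 1 ≤ X → (∀ v ∈ s, ∀ a ∈ v, 2 ≤ a) →
      (∀ v ∈ s, ((v.prod : ℕ) : ℝ) ≤ X) → ∑ v ∈ s, (((v.prod : ℕ) : ℝ))⁻¹ ≤ D * X ^ ε)
    (g : ℕ) (hg : g ≤ G) :
    ∑ a ∈ MM N, ((rootSet a.prod g H).card : ℝ) ≤
      C * D * (N : ℝ) ^ (2 * ε) * (4 * G + 2) * H := by
  have hN0 : (0 : ℝ) < N := by exact_mod_cast hN
  calc ∑ a ∈ MM N, ((rootSet a.prod g H).card : ℝ)
      ≤ ∑ a ∈ MM N, (C * (N : ℝ) ^ ε * (4 * G + 2) * H) * (((a.prod : ℕ) : ℝ))⁻¹ := by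
        apply Finset.sum_le_sum
        intro a ha
        rw [mem_MM] at ha
        have hpos : 0 < a.prod := prod_pos_of_ge_two a ha.1
        have hp : (0 : ℝ) < ((a.prod : ℕ) : ℝ) := by exact_mod_cast hpos
        rw [← div_eq_mul_inv, le_div_iff₀ hp]
        have h1 := card_rootSet_le a.prod g H hpos
        have h2 : a.prod.divisors.card * ((4 * g + 1) * H + a.prod) ≤
            a.prod.divisors.card * ((4 * G + 2) * H) := by
          apply Nat.mul_le_mul_left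
          have : a.prod ≤ H := ha.2.trans hNH
          nlinarith
        have h3 : ((a.prod.divisors.card : ℕ) : ℝ) ≤ C * (N : ℝ) ^ ε := by
          refine (hdiv _ hpos.ne').trans ?_
          apply mul_le_mul_of_nonneg_left _ (by linarith)
          apply Real.rpow_le_rpow hp.le _ hε.le
          exact_mod_cast ha.2
        calc ((rootSet a.prod g H).card : ℝ) * ((a.prod : ℕ) : ℝ)
            = (((rootSet a.prod g H).card * a.prod : ℕ) : ℝ) := by push_cast; ring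
          _ ≤ ((a.prod.divisors.card * ((4 * G + 2) * H) : ℕ) : ℝ) := by
              exact_mod_cast h1.trans h2
          _ = (a.prod.divisors.card : ℝ) * ((4 * G + 2) * H) := by push_cast; ring
          _ ≤ (C * (N : ℝ) ^ ε) * ((4 * G + 2) * H) := by
              apply mul_le_mul_of_nonneg_right h3 (by positivity)
          _ = _ := by ring
    _ = (C * (N : ℝ) ^ ε * (4 * G + 2) * H) * ∑ a ∈ MM N, (((a.prod : ℕ) : ℝ))⁻¹ := by
        rw [Finset.mul_sum]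
    _ ≤ (C * (N : ℝ) ^ ε * (4 * G + 2) * H) * (D * (N : ℝ) ^ ε) := by
        apply mul_le_mul_of_nonneg_left _ (by positivity)
        apply hsum (N : ℝ) _ (by exact_mod_cast hN)
        · intro v hv; exact (mem_MM.mp hv).1
        · intro v hv; exact_mod_cast (mem_MM.mp hv).2
    _ = C * D * ((N : ℝ) ^ ε * (N : ℝ) ^ ε) * (4 * G + 2) * H := by ring
    _ = _ := by
        rw [← Real.rpow_add hN0]
        ring_nf

end Pool.Agent.Hhelper87
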