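import Mathlib
import Pool.Agent.Hhelper87.SigmaTwo.TypeTwo

/-!
For large `B` some `n` in `[B ^ 181, 2 B ^ 181)` has fewer than `c B ^ 180` solutions.
-/

namespace Pool.Agent.Hhelper87

open Finset Filter

lemma IsSol.cons_unique {w : Multiset ℕ} {z z' : ℕ} {v v' : Multiset ℕ}
    (h1 : w = z ::ₘ v) (h2 : ∀ a ∈ v, a ≤ z) (h3 : w = z' ::ₘ v') (h4 : ∀ a ∈ v', a ≤ z') :
    z = z' ∧ v = v' := by
  have e1 : w.sup = z := by rw [h1]; exact sup_cons_eq z v h2
  have e2 : w.sup = z' := by rw [h3]; exact sup_cons_eq z' v' h4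
  have e3 : z = z' := e1.symm.trans e2
  subst e3
  refine ⟨rfl, ?_⟩
  rw [h1] at h3
  exact (Multiset.cons_inj_right z).mp h3

lemma upper_aux1 (B : ℕ) (hlog : 20 * B ^ 543 < 2 ^ B) (n : ℕ)
    (hn : n < 2 * B ^ 181) (v : Multiset ℕ) (hv : ∀ a ∈ v, 2 ≤ a)
    (hprod : 2 * v.prod ≤ 5 * n ^ 3) : Multiset.card v < B := by
  have h1 := two_pow_card_le v hv
  have h2 : v.prod ≤ 20 * B ^ 543 := by
    have h3 : n ^ 3 ≤ (2 * B ^ 181) ^ 3 := Nat.pow_le_pow_left hn.le 3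
    have h4 : (2 * B ^ 181) ^ 3 = 8 * B ^ 543 := by ring
    omega
  have h5 : 2 ^ Multiset.card v < 2 ^ B := by omega
  exact (Nat.pow_lt_pow_iff_right (by norm_num)).mp h5

lemma upper_aux2 (B : ℕ) (hB : 1 ≤ B) (hlog : 20 * B ^ 543 < 2 ^ B) (n : ℕ) (hn3 : 3 ≤ n)
    (hn : n < 2 * B ^ 181) (w : Multiset ℕ) (hw : IsSol n w) (hbig : ∃ a ∈ w, B ^ 10 < a)
    (z : ℕ) (v : Multiset ℕ) (hwz : w = z ::ₘ v) (hvz : ∀ a ∈ v, a ≤ z) :
    v.prod ≤ 84 * B ^ 354 := by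
  obtain ⟨z', v', h1, h2, h3, h4, h5, h6, h7, h8⟩ := hw.data hn3
  obtain ⟨rfl, rfl⟩ := IsSol.cons_unique hwz hvz h1 h2
  have hcard := upper_aux1 B hlog n hn v h3 h5
  have hz : B ^ 10 < z := by
    obtain ⟨a, ha, hab⟩ := hbig
    rw [hwz, Multiset.mem_cons] at ha
    rcases ha with rfl | ha
    · exact hab
    · exact lt_of_lt_of_le hab (hvz a ha)
  set u := n - 1 + rr v with hu
  have hu1 : u ≤ 12 * B ^ 182 := by
    calc u ≤ n * (1 + 5 * Multiset.card v) := h6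
      _ ≤ (2 * B ^ 181) * (6 * B) := Nat.mul_le_mul hn.le (by omega)
      _ = 12 * B ^ 182 := by ring
  have hu2 : u ^ 2 ≤ 144 * B ^ 364 := by
    calc u ^ 2 ≤ (12 * B ^ 182) ^ 2 := Nat.pow_le_pow_left hu1 2
      _ = 144 * B ^ 364 := by ring
  have h9 : 12 * B ^ 182 + 72 * B ^ 354 ≤ 84 * B ^ 354 := by
    have : B ^ 182 ≤ B ^ 354 := Nat.pow_le_pow_right hB (by norm_num)
    omega
  refine le_trans ?_ h9
  by_contra hcon
  push Not at hcon
  have h10 : 2 * z * (12 * B ^ 182 + 72 * B ^ 354) < 2 * z * v.prod :=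
    Nat.mul_lt_mul_of_pos_left hcon (by omega)
  have h11 : 2 * z * u ≤ 2 * z * (12 * B ^ 182) := Nat.mul_le_mul_left _ hu1
  have h12 : 144 * B ^ 364 ≤ 2 * z * (72 * B ^ 354) := by
    calc 144 * B ^ 364 = 144 * B ^ 354 * B ^ 10 := by ring
      _ ≤ 144 * B ^ 354 * z := Nat.mul_le_mul_left _ hz.le
      _ = _ := by ring
  have h13 : 2 * z * (12 * B ^ 182 + 72 * B ^ 354) =
    2 * z * (12 * B ^ 182) + 2 * z * (72 * B ^ 354) := by ring
  omega

lemma upper_aux3 (B : ℕ) (hB : 1 ≤ B) (hlog : 20 * B ^ 543 < 2 ^ B) (n : ℕ) (hn3 : 3 ≤ n)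
    (hn : n < 2 * B ^ 181) (w : Multiset ℕ) (hw : IsSol n w) (hsm : ∀ a ∈ w, a ≤ B ^ 10) :
    rr w ≤ B ^ 11 ∧ gg w ≤ B ^ 21 ∧ w.prod ≤ 5 * (B ^ 181) ^ 2 := by
  obtain ⟨z, v, h1, h2, h3, h4, h5, h6, h7, h8⟩ := hw.data hn3
  have hcard := upper_aux1 B hlog n hn v h3 h5
  have hcardw : Multiset.card w ≤ B := by rw [h1, Multiset.card_cons]; omega
  have e1 : rr w ≤ B ^ 11 := by
    calc rr w ≤ Multiset.card w * (B ^ 10 - 1) := rr_le_card_mul w _ hsm
      _ ≤ B * B ^ 10 := Nat.mul_le_mul hcardw (by omega)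
      _ = B ^ 11 := by ring
  have e2 : gg w ≤ B ^ 21 := by
    calc gg w ≤ Multiset.card w * (B ^ 10 * B ^ 10) := gg_le_card_mul w _ hsm
      _ ≤ B * (B ^ 10 * B ^ 10) := Nat.mul_le_mul_right _ hcardw
      _ = B ^ 21 := by ring
  refine ⟨e1, e2, ?_⟩
  have e3 : (n + rr w) ^ 2 ≤ (3 * B ^ 181) ^ 2 := by
    apply Nat.pow_le_pow_left
    have : B ^ 11 ≤ B ^ 181 := Nat.pow_le_pow_right hB (by norm_num)
    omega
  have e4 := hw.2.2
  have e5 : (3 * B ^ 181) ^ 2 = 9 * (B ^ 181) ^ 2 := by ring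
  omega

theorem upper (c : ℝ) (hc : 0 < c) : ∀ᶠ B : ℕ in atTop,
    ¬ (∀ n ∈ Finset.Ico (B ^ 181) (2 * B ^ 181), ∃ A : Finset (Multiset ℕ),
      (∀ w ∈ A, IsSol n w) ∧ c * (B : ℝ) ^ 180 ≤ A.card) := by
  classical
  obtain ⟨C, hC1, hC⟩ := divisor_bound (1 / 1086) (by norm_num)
  obtain ⟨D1, hD11, hD1⟩ := sum_inv_prod_le (1 / 1086) (by norm_num)
  obtain ⟨D2, hD21, hD2⟩ := card_le_of_prod_le (1 / 1086) (by norm_num)
  have hlogev : ∀ᶠ B : ℕ in atTop, 20 * B ^ 543 < 2 ^ B := by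
    have h := tendsto_pow_const_div_const_pow_of_one_lt 543 (by norm_num : (1 : ℝ) < 2)
    have h2 := h.eventually (gt_mem_nhds (by norm_num : (0 : ℝ) < 1 / 20))
    filter_upwards [h2] with B hB
    rw [div_lt_iff₀ (by positivity)] at hB
    have : (20 : ℝ) * (B : ℝ) ^ 543 < 2 ^ B := by linarith
    exact_mod_cast this
  obtain ⟨M0, hM0⟩ := exists_nat_gt (2 / c + (2 / c * C * D2 * 7056 + 72 * C * D1) + 5)
  filter_upwards [hlogev, eventually_ge_atTop M0] with B hlog hBM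
  intro hcon
  choose! A hA hAcard using hcon
  have hBreal : 2 / c + (2 / c * C * D2 * 7056 + 72 * C * D1) + 5 < (B : ℝ) :=
    lt_of_lt_of_le hM0 (by exact_mod_cast hBM)
  have hC0 : 0 < C := by linarith
  have hD10 : 0 < D1 := by linarith
  have hD20 : 0 < D2 := by linarith
  have hpos1 : 0 < 2 / c := by positivity
  have hpos2 : 0 < 2 / c * C * D2 * 7056 := by positivity
  have hpos3 : 0 < 72 * C * D1 := by positivity
  have hB5 : (5 : ℝ) < B := by linarith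
  have hB5' : 5 < B := by exact_mod_cast hB5
  have hB1 : 1 ≤ B := by omega
  have hB0r : (0 : ℝ) < B := by linarith
  have hB1r : (1 : ℝ) ≤ B := by linarith
  set N := B ^ 181 with hN
  have hN3 : 3 ≤ N := by
    calc 3 ≤ B ^ 1 := by rw [pow_one]; omega
      _ ≤ B ^ 181 := Nat.pow_le_pow_right hB1 (by norm_num)
  let A1 : ℕ → Finset (Multiset ℕ) := fun n => (A n).filter (fun w => ∃ a ∈ w, B ^ 10 < a)
  let A2 : ℕ → Finset (Multiset ℕ) := fun n => (A n).filter (fun w => ¬ ∃ a ∈ w, B ^ 10 < a)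
  have hsplit : ∀ n, (A1 n).card + (A2 n).card = (A n).card := fun n =>
    Finset.card_filter_add_card_filter_not (s := A n) (fun w => ∃ a ∈ w, B ^ 10 < a)
  -- type one
  have hT1 : ((∑ n ∈ Finset.Ico N (2 * N), (A1 n).card : ℕ) : ℝ) ≤ C * D2 * (7056 * B ^ 355) := by
    have h1 := typeOne_count N (84 * B ^ 354) hN3 A1
      (fun n hn w hw => hA n hn w (Finset.mem_filter.mp hw).1)
      (fun n hn w hw z v hwz hvz => upper_aux2 B hB1 hlog n
        (hN3.trans (Finset.mem_Ico.mp hn).1) (Finset.mem_Ico.mp hn).2 w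
        (hA n hn w (Finset.mem_filter.mp hw).1) (Finset.mem_filter.mp hw).2 z v hwz hvz)
      C D2 (1 / 1086) (by norm_num) hC1 hD21 hC hD2
      (by
        have : 1 ≤ B ^ 354 := Nat.one_le_pow _ _ hB1
        omega)
    refine h1.trans ?_
    apply mul_le_mul_of_nonneg_left _ (by positivity)
    have hX : (0 : ℝ) < ((84 * B ^ 354 : ℕ) : ℝ) := by push_cast; positivity
    rw [Real.rpow_add hX, Real.rpow_one]
    have h2 : (((84 * B ^ 354 : ℕ) : ℝ)) ^ (3 * (1 / 1086) : ℝ) ≤ 84 * B := by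
      have h3 : (((84 * B ^ 354 : ℕ) : ℝ)) ≤ ((84 * B : ℝ)) ^ 362 := by
        push_cast
        rw [mul_pow]
        apply mul_le_mul
        · calc (84 : ℝ) = 84 ^ 1 := by norm_num
            _ ≤ 84 ^ 362 := pow_le_pow_right₀ (by norm_num) (by norm_num)
        · exact pow_le_pow_right₀ hB1r (by norm_num)
        · positivity
        · positivity
      calc (((84 * B ^ 354 : ℕ) : ℝ)) ^ (3 * (1 / 1086) : ℝ)
          ≤ (((84 * B : ℝ)) ^ 362) ^ (3 * (1 / 1086) : ℝ) :=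
            Real.rpow_le_rpow hX.le h3 (by norm_num)
        _ = 84 * B := by
            have e : (3 * (1 / 1086) : ℝ) = ((362 : ℕ) : ℝ)⁻¹ := by norm_num
            rw [e]
            exact Real.pow_rpow_inv_natCast (by positivity) (by norm_num)
    calc (((84 * B ^ 354 : ℕ) : ℝ)) * (((84 * B ^ 354 : ℕ) : ℝ)) ^ (3 * (1 / 1086) : ℝ)
        ≤ (((84 * B ^ 354 : ℕ) : ℝ)) * (84 * B) := mul_le_mul_of_nonneg_left h2 hX.le
      _ = 7056 * B ^ 355 := by push_cast; ring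
  -- type two
  have hA2 : ∀ n ∈ Finset.Ico N (2 * N), (A2 n).card ≤ (DD N (B ^ 11) (B ^ 21) n).card ^ 3 := by
    intro n hn
    have hn' := Finset.mem_Ico.mp hn
    have hsol : ∀ w ∈ A2 n, IsSol n w := fun w hw => hA n hn w (Finset.mem_filter.mp hw).1
    have hsm : ∀ w ∈ A2 n, ∀ a ∈ w, a ≤ B ^ 10 := by
      intro w hw a ha
      have := (Finset.mem_filter.mp hw).2
      push Not at this
      exact this a ha
    apply typeTwo_card_le (B ^ 10) N (B ^ 11) (B ^ 21) n (by omega) _ (A2 n) hsol hsm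
    · intro w hw
      exact (upper_aux3 B hB1 hlog n (hN3.trans hn'.1) hn'.2 w (hsol w hw) (hsm w hw)).1
    · intro w hw
      exact (upper_aux3 B hB1 hlog n (hN3.trans hn'.1) hn'.2 w (hsol w hw) (hsm w hw)).2.1
    · intro w hw
      exact (upper_aux3 B hB1 hlog n (hN3.trans hn'.1) hn'.2 w (hsol w hw) (hsm w hw)).2.2
    · calc 5 * (B ^ 10) ^ 2 ≤ B * (B ^ 10) ^ 2 := Nat.mul_le_mul_right _ (by omega)
        _ = B ^ 21 := by ring
        _ ≤ B ^ 181 := Nat.pow_le_pow_right hB1 (by norm_num)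
  have hT2 : ((∑ n ∈ Finset.Ico N (2 * N), (DD N (B ^ 11) (B ^ 21) n).card : ℕ) : ℝ) ≤
      72 * C * D1 * B ^ 235 := by
    have h1 := sum_DD_le N (B ^ 11) (B ^ 21) (3 * B ^ 181) (by
      have : B ^ 11 ≤ B ^ 181 := Nat.pow_le_pow_right hB1 (by norm_num)
      omega)
    have h2 : ((∑ g ∈ Finset.range (B ^ 21 + 1), ∑ a ∈ MM N,
        (rootSet a.prod g (3 * B ^ 181)).card : ℕ) : ℝ) ≤
        (B ^ 21 + 1) * (C * D1 * B * (6 * B ^ 21) * (3 * B ^ 181)) := by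
      push_cast
      calc ∑ g ∈ Finset.range (B ^ 21 + 1), ∑ a ∈ MM N,
            ((rootSet a.prod g (3 * B ^ 181)).card : ℝ)
          ≤ ∑ g ∈ Finset.range (B ^ 21 + 1), (C * D1 * B * (6 * B ^ 21) * (3 * B ^ 181)) := by
            apply Finset.sum_le_sum
            intro g hg
            have hg' : g ≤ B ^ 21 := by
              rw [Finset.mem_range] at hg; omega
            have h3 := sum_rootSet_le N (B ^ 21) (3 * B ^ 181) (by omega) (by omega) C D1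
              (1 / 1086) (by norm_num) hC1 hC hD1 g hg'
            refine h3.trans ?_
            have h4 : (N : ℝ) ^ (2 * (1 / 1086) : ℝ) ≤ B := by
              have e : (N : ℝ) = (B : ℝ) ^ (181 : ℝ) := by
                rw [hN]; push_cast
                rw [← Real.rpow_natCast]; norm_num
              rw [e, ← Real.rpow_mul hB0r.le]
              calc (B : ℝ) ^ (181 * (2 * (1 / 1086)) : ℝ) ≤ (B : ℝ) ^ (1 : ℝ) :=
                    Real.rpow_le_rpow_of_exponent_le hB1r (by norm_num)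
                _ = B := Real.rpow_one _
            have h5 : (4 * ((B ^ 21 : ℕ) : ℝ) + 2) ≤ 6 * (B : ℝ) ^ 21 := by
              push_cast
              have : (1 : ℝ) ≤ (B : ℝ) ^ 21 := one_le_pow₀ hB1r
              linarith
            push_cast at h5 ⊢
            gcongr
        _ = _ := by
            rw [Finset.sum_const, Finset.card_range, nsmul_eq_mul]
            push_cast
            ring
    calc ((∑ n ∈ Finset.Ico N (2 * N), (DD N (B ^ 11) (B ^ 21) n).card : ℕ) : ℝ)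
        ≤ (((B ^ 11 + 1) * ∑ g ∈ Finset.range (B ^ 21 + 1), ∑ a ∈ MM N,
            (rootSet a.prod g (3 * B ^ 181)).card : ℕ) : ℝ) := by exact_mod_cast h1
      _ = ((B : ℝ) ^ 11 + 1) * ((∑ g ∈ Finset.range (B ^ 21 + 1), ∑ a ∈ MM N,
            (rootSet a.prod g (3 * B ^ 181)).card : ℕ) : ℝ) := by push_cast; ring
      _ ≤ ((B : ℝ) ^ 11 + 1) * ((B ^ 21 + 1) * (C * D1 * B * (6 * B ^ 21) * (3 * B ^ 181))) := by
          apply mul_le_mul_of_nonneg_left h2 (by positivity)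
      _ ≤ (2 * (B : ℝ) ^ 11) * ((2 * B ^ 21) * (C * D1 * B * (6 * B ^ 21) * (3 * B ^ 181))) := by
          have t1 : (1 : ℝ) ≤ (B : ℝ) ^ 11 := one_le_pow₀ hB1r
          have t2 : (1 : ℝ) ≤ (B : ℝ) ^ 21 := one_le_pow₀ hB1r
          have t3 : (B : ℝ) ^ 11 + 1 ≤ 2 * (B : ℝ) ^ 11 := by linarith
          have t4 : (B : ℝ) ^ 21 + 1 ≤ 2 * (B : ℝ) ^ 21 := by linarith
          gcongr
      _ = _ := by ring
  -- pointwise
  have hpt : ∀ n ∈ Finset.Ico N (2 * N), (1 : ℝ) ≤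
      2 / c * ((A1 n).card : ℝ) / B ^ 180 + ((DD N (B ^ 11) (B ^ 21) n).card : ℝ) / B ^ 59 := by
    intro n hn
    have h1 := hAcard n hn
    have h2 : ((A1 n).card : ℝ) + (A2 n).card = (A n).card := by exact_mod_cast hsplit n
    by_cases hcase : c / 2 * (B : ℝ) ^ 180 ≤ (A1 n).card
    · have : (1 : ℝ) ≤ 2 / c * ((A1 n).card : ℝ) / B ^ 180 := by
        rw [le_div_iff₀ (by positivity), one_mul]
        calc (B : ℝ) ^ 180 = 2 / c * (c / 2 * (B : ℝ) ^ 180) := by field_simp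
          _ ≤ 2 / c * ((A1 n).card : ℝ) := mul_le_mul_of_nonneg_left hcase hpos1.le
      have h3 : 0 ≤ ((DD N (B ^ 11) (B ^ 21) n).card : ℝ) / B ^ 59 := by positivity
      linarith
    · push Not at hcase
      have h3 : c / 2 * (B : ℝ) ^ 180 ≤ (A2 n).card := by linarith
      have h4 : ((A2 n).card : ℝ) ≤ ((DD N (B ^ 11) (B ^ 21) n).card : ℝ) ^ 3 := by
        exact_mod_cast hA2 n hn
      have h5 : (B : ℝ) ^ 59 ≤ (DD N (B ^ 11) (B ^ 21) n).card := by
        by_contra hlt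
        push Not at hlt
        have h6 : ((DD N (B ^ 11) (B ^ 21) n).card : ℝ) ^ 3 < ((B : ℝ) ^ 59) ^ 3 :=
          pow_lt_pow_left₀ hlt (by positivity) (by norm_num)
        have h7 : ((B : ℝ) ^ 59) ^ 3 ≤ c / 2 * (B : ℝ) ^ 180 := by
          have h8 : 1 ≤ c / 2 * (B : ℝ) ^ 3 := by
            have h9 : 2 / c ≤ (B : ℝ) ^ 3 := by
              calc 2 / c ≤ B := by linarith
                _ = (B : ℝ) ^ 1 := by ring
                _ ≤ (B : ℝ) ^ 3 := pow_le_pow_right₀ hB1r (by norm_num)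
            calc (1 : ℝ) = c / 2 * (2 / c) := by field_simp
              _ ≤ c / 2 * (B : ℝ) ^ 3 := mul_le_mul_of_nonneg_left h9 (by positivity)
          calc ((B : ℝ) ^ 59) ^ 3 = 1 * (B : ℝ) ^ 177 := by ring
            _ ≤ (c / 2 * (B : ℝ) ^ 3) * (B : ℝ) ^ 177 :=
                mul_le_mul_of_nonneg_right h8 (by positivity)
            _ = _ := by ring
        linarith
      have h6 : (1 : ℝ) ≤ ((DD N (B ^ 11) (B ^ 21) n).card : ℝ) / B ^ 59 := by
        rw [le_div_iff₀ (by positivity), one_mul]; exact h5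
      have h7 : 0 ≤ 2 / c * ((A1 n).card : ℝ) / B ^ 180 := by positivity
      linarith
  have hsum : (N : ℝ) ≤ 2 / c * (C * D2 * (7056 * B ^ 355)) / B ^ 180 +
      (72 * C * D1 * B ^ 235) / B ^ 59 := by
    calc (N : ℝ) = ∑ n ∈ Finset.Ico N (2 * N), (1 : ℝ) := by
          rw [Finset.sum_const, Nat.card_Ico, nsmul_eq_mul, mul_one]
          congr 1; omega
      _ ≤ ∑ n ∈ Finset.Ico N (2 * N), (2 / c * ((A1 n).card : ℝ) / B ^ 180 +
            ((DD N (B ^ 11) (B ^ 21) n).card : ℝ) / B ^ 59) := Finset.sum_le_sum hpt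
      _ = 2 / c * ((∑ n ∈ Finset.Ico N (2 * N), (A1 n).card : ℕ) : ℝ) / B ^ 180 +
            ((∑ n ∈ Finset.Ico N (2 * N), (DD N (B ^ 11) (B ^ 21) n).card : ℕ) : ℝ) / B ^ 59 := by
          rw [Finset.sum_add_distrib, ← Finset.sum_div, ← Finset.mul_sum, ← Finset.sum_div]
          push_cast
          rfl
      _ ≤ _ := by
          gcongr
  have hfin : 2 / c * (C * D2 * (7056 * B ^ 355)) / B ^ 180 + (72 * C * D1 * B ^ 235) / B ^ 59 ≤
      (2 / c * C * D2 * 7056 + 72 * C * D1) * (B : ℝ) ^ 176 := by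
    have e1 : 2 / c * (C * D2 * (7056 * (B : ℝ) ^ 355)) / B ^ 180 =
        (2 / c * C * D2 * 7056) * (B : ℝ) ^ 175 := by
      field_simp
    have e2 : (72 * C * D1 * (B : ℝ) ^ 235) / B ^ 59 = (72 * C * D1) * (B : ℝ) ^ 176 := by
      field_simp
    rw [e1, e2, add_mul]
    have : (B : ℝ) ^ 175 ≤ (B : ℝ) ^ 176 := pow_le_pow_right₀ hB1r (by norm_num)
    gcongr
  have hfin2 : (2 / c * C * D2 * 7056 + 72 * C * D1) * (B : ℝ) ^ 176 < (B : ℝ) ^ 181 := by
    calc (2 / c * C * D2 * 7056 + 72 * C * D1) * (B : ℝ) ^ 176 < (B : ℝ) * (B : ℝ) ^ 176 := by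
          apply mul_lt_mul_of_pos_right _ (by positivity)
          linarith
      _ = (B : ℝ) ^ 177 := by ring
      _ ≤ (B : ℝ) ^ 181 := pow_le_pow_right₀ hB1r (by norm_num)
  have hNr : (N : ℝ) = (B : ℝ) ^ 181 := by rw [hN]; push_cast; rfl
  linarith

end Pool.Agent.Hhelper87
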